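import Pool.Agent.Work.MP_8a6869_an.CC.Stmts

/-!
# MP_8a6869_an, commuting copies, item EMB: an injective homomorphism of groups induces an embedding
-/

namespace MP8a6869.CC

open MP8a6869 MP8a6869.WR MP8a6869.WR.Contra
open scoped InnerProductSpace ComplexOrder ENNReal
open Filter Topology

noncomputable section

namespace XEmb

variable {G G' : Type} [Group G] [Group G'] {j : G →* G'} (hj : Function.Injective j)

include hj in
theorem inj_s (s : G') : Function.Injective fun g : G => j g * s := fun _ _ e =>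
  hj (mul_right_cancel e)

/-- the coset of `s` as a map `ℓ²(G') → ℓ²(G)` -/
def A (s : G') : ell2 G' →L[ℂ] ell2 G :=
  LinearMap.mkContinuous
    { toFun := fun f => (⟨fun g => f (j g * s), mem_of ((summ f).comp_injective (inj_s hj s))⟩ :
        ell2 G)
      map_add' := fun f f' => by ext g; rfl
      map_smul' := fun c f => by ext g; rfl } 1 (fun f => by
      rw [one_mul]
      refine (sq_le_sq₀ (norm_nonneg _) (norm_nonneg _)).1 ?_
      rw [nsq, nsq]
      exact tsum_comp_le_tsum_of_inj (summ f) (fun s => by positivity) (inj_s hj s))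

@[simp] theorem A_apply (s : G') (f : ell2 G') (g : G) : A hj s f g = f (j g * s) := rfl

/-- the right cosets -/
abbrev Q (j : G →* G') : Type := Quotient (QuotientGroup.rightRel j.range)

include hj in
theorem bij : Function.Bijective fun p : Q j × G => j p.2 * p.1.out := by
  constructor
  · rintro ⟨c, g⟩ ⟨c', g'⟩ h
    simp only at h
    have h1 : c = c' := by
      rw [← Quotient.out_eq c, ← Quotient.out_eq c']
      apply Quotient.sound
      change QuotientGroup.rightRel j.range _ _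
      rw [QuotientGroup.rightRel_apply]
      refine ⟨g'⁻¹ * g, ?_⟩
      rw [map_mul, map_inv]
      have : c'.out = (j g')⁻¹ * (j g * c.out) := by rw [h]; group
      rw [this]
      group
    subst h1
    have h2 := inj_s hj c.out h
    rw [h2]
  · intro y
    have h2 : QuotientGroup.rightRel j.range (Quotient.mk (QuotientGroup.rightRel j.range) y).out y :=
      Quotient.exact (Quotient.out_eq _)
    rw [QuotientGroup.rightRel_apply] at h2
    obtain ⟨g, hg⟩ := h2
    refine ⟨(Quotient.mk _ y, g), ?_⟩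
    simp only
    rw [hg]
    group

/-- the disjoint union of the cosets -/
def eq : Q j × G ≃ G' := Equiv.ofBijective _ (bij hj)

@[simp] theorem eq_apply (p : Q j × G) : eq hj p = j p.2 * p.1.out := rfl

/-- the part of `f` on the coset `c` -/
abbrev AQ (c : Q j) : ell2 G' →L[ℂ] ell2 G := A hj c.out

theorem hasSum_inner (f f' : ell2 G') :
    HasSum (fun c : Q j => ⟪AQ hj c f, AQ hj c f'⟫_ℂ) ⟪f, f'⟫_ℂ := by
  have h1 := lp.hasSum_inner (𝕜 := ℂ) f f'
  rw [← (eq hj).hasSum_iff] at h1
  exact h1.prod_fiberwise fun c => lp.hasSum_inner (𝕜 := ℂ) (AQ hj c f) (AQ hj c f')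

theorem hasSum_sq (f : ell2 G') :
    HasSum (fun c : Q j => ‖AQ hj c f‖ ^ 2) (‖f‖ ^ 2) := by
  have h1 : HasSum (fun y : G' => ‖f y‖ ^ 2) (‖f‖ ^ 2) := by
    rw [nsq]
    exact (summ f).hasSum
  rw [← (eq hj).hasSum_iff] at h1
  refine h1.prod_fiberwise fun c => ?_
  rw [nsq]
  exact (summ (AQ hj c f)).hasSum

theorem A_mul (g : G) (s : G') (f : ell2 G') : A hj (j g * s) f = rightReg G g (A hj s f) := by
  ext h
  simp [mul_assoc]

theorem x_A_mul {x : ell2 G →L[ℂ] ell2 G} (hx : x ∈ LGalg G) (g : G) (s : G') (f : ell2 G') :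
    x (A hj (j g * s) f) 1 = x (A hj s f) g := by
  rw [A_mul, ← mul_apply_eq_comp, ← comm_rightReg G hx, mul_apply_eq_comp, rightReg_apply, one_mul]

theorem hasSum_x {x : ell2 G →L[ℂ] ell2 G} (hx : x ∈ LGalg G) (f : ell2 G') :
    HasSum (fun s : G' => ‖x (A hj s f) 1‖ ^ 2) (∑' c : Q j, ‖x (AQ hj c f)‖ ^ 2) := by
  rw [← (eq hj).hasSum_iff]
  have e1 : ((fun s : G' => ‖x (A hj s f) 1‖ ^ 2) ∘ (eq hj)) =
      fun p : Q j × G => ‖x (AQ hj p.1 f) p.2‖ ^ 2 := by
    funext p
    simp only [Function.comp_apply, eq_apply]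
    rw [x_A_mul hj hx]
  rw [e1]
  have h2 : ∀ c : Q j, HasSum (fun g : G => ‖x (AQ hj c f) g‖ ^ 2) (‖x (AQ hj c f)‖ ^ 2) := by
    intro c
    rw [nsq]
    exact (summ _).hasSum
  have h3 : Summable fun c : Q j => ‖x (AQ hj c f)‖ ^ 2 := by
    refine ((hasSum_sq hj f).summable.mul_left (‖x‖ ^ 2)).of_nonneg_of_le (fun c => by positivity)
      fun c => ?_
    rw [← mul_pow]
    exact pow_le_pow_left₀ (norm_nonneg _) (x.le_opNorm _) 2
  have h4 : Summable fun p : Q j × G => ‖x (AQ hj p.1 f) p.2‖ ^ 2 := by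
    rw [summable_prod_of_nonneg (fun p => by positivity)]
    refine ⟨fun c => (h2 c).summable, ?_⟩
    have : (fun c : Q j => ∑' g : G, ‖x (AQ hj c f) g‖ ^ 2) = fun c => ‖x (AQ hj c f)‖ ^ 2 :=
      funext fun c => (h2 c).tsum_eq
    rw [this]
    exact h3
  have h5 := h4.hasSum.prod_fiberwise h2
  rw [h5.tsum_eq]
  exact h4.hasSum

/-- the operator `ι(x)` -/
def io {x : ell2 G →L[ℂ] ell2 G} (hx : x ∈ LGalg G) : ell2 G' →L[ℂ] ell2 G' :=
  LinearMap.mkContinuous
    { toFun := fun f => (⟨fun s => x (A hj s f) 1, mem_of (hasSum_x hj hx f).summable⟩ : ell2 G')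
      map_add' := fun f f' => by
        ext s
        change x (A hj s (f + f')) 1 = x (A hj s f) 1 + x (A hj s f') 1
        rw [map_add, map_add]
        rfl
      map_smul' := fun c f => by
        ext s
        change x (A hj s (c • f)) 1 = c • x (A hj s f) 1
        rw [map_smul, map_smul]
        rfl } ‖x‖ (fun f => by
      refine (sq_le_sq₀ (norm_nonneg _) (by positivity)).1 ?_
      rw [nsq, mul_pow, ← (hasSum_sq hj f).tsum_eq, ← tsum_mul_left]
      refine le_of_eq_of_le (hasSum_x hj hx f).tsum_eq ?_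
      have h3 : ∀ c : Q j, ‖x (AQ hj c f)‖ ^ 2 ≤ ‖x‖ ^ 2 * ‖AQ hj c f‖ ^ 2 := fun c => by
        rw [← mul_pow]
        exact pow_le_pow_left₀ (norm_nonneg _) (x.le_opNorm _) 2
      have h4 := (hasSum_sq hj f).summable.mul_left (‖x‖ ^ 2)
      exact Summable.tsum_le_tsum h3 (h4.of_nonneg_of_le (fun c => by positivity) h3) h4)

theorem io_apply {x : ell2 G →L[ℂ] ell2 G} (hx : x ∈ LGalg G) (f : ell2 G') (s : G') :
    io hj hx f s = x (A hj s f) 1 := rfl

theorem A_io {x : ell2 G →L[ℂ] ell2 G} (hx : x ∈ LGalg G) (s : G') (f : ell2 G') :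
    A hj s (io hj hx f) = x (A hj s f) := by
  ext g
  rw [A_apply, io_apply, x_A_mul hj hx]

/-- uniqueness -/
theorem io_eq {x : ell2 G →L[ℂ] ell2 G} (hx : x ∈ LGalg G) (T : ell2 G' →L[ℂ] ell2 G')
    (hT : ∀ s f, A hj s (T f) = x (A hj s f)) : T = io hj hx := by
  ext f s
  rw [io_apply, ← hT, A_apply, map_one, one_mul]

theorem inner_io {x : ell2 G →L[ℂ] ell2 G} (hx : x ∈ LGalg G) (f f' : ell2 G') :
    HasSum (fun c : Q j => ⟪AQ hj c f, x (AQ hj c f')⟫_ℂ) ⟪f, io hj hx f'⟫_ℂ := by
  have h := hasSum_inner hj f (io hj hx f')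
  simp only [A_io] at h
  exact h

theorem star_mem' {x : ell2 G →L[ℂ] ell2 G} (hx : x ∈ LGalg G) : star x ∈ LGalg G := star_mem hx

theorem io_star {x : ell2 G →L[ℂ] ell2 G} (hx : x ∈ LGalg G) :
    star (io hj hx) = io hj (star_mem' hx) := by
  rw [ContinuousLinearMap.star_eq_adjoint]
  symm
  rw [ContinuousLinearMap.eq_adjoint_iff]
  intro f f'
  have h1 := inner_io hj hx f f'
  have h2 := inner_io hj (star_mem' hx) f' f
  have h3 : HasSum (fun c : Q j => ⟪star x (AQ hj c f), AQ hj c f'⟫_ℂ)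
      ⟪io hj (star_mem' hx) f, f'⟫_ℂ := by
    have h4 := hasSum_inner hj (io hj (star_mem' hx) f) f'
    simp only [A_io] at h4
    exact h4
  have h5 : (fun c : Q j => ⟪star x (AQ hj c f), AQ hj c f'⟫_ℂ) =
      fun c : Q j => ⟪AQ hj c f, x (AQ hj c f')⟫_ℂ := by
    funext c
    rw [ContinuousLinearMap.star_eq_adjoint, ContinuousLinearMap.adjoint_inner_left]
  rw [h5] at h3
  exact h3.unique h1

theorem zero_of_delta {S : Type} (D : ell2 S →L[ℂ] ell2 S) (h1 : ∀ g : S, D (delta g) = 0) :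
    D = 0 := by
  have h2 : ∀ f : ell2 S, D f = 0 := by
    intro f
    ext h
    have h3 : ∀ g : S, ((star D) (delta h)) g = 0 := by
      intro g
      rw [← inner_delta_left, ContinuousLinearMap.star_eq_adjoint,
        ContinuousLinearMap.adjoint_inner_right, h1, inner_zero_left]
    have h4 : (star D) (delta h) = 0 := by
      ext g
      exact h3 g
    rw [← inner_delta_left, ← ContinuousLinearMap.adjoint_inner_left,
      ← ContinuousLinearMap.star_eq_adjoint, h4, inner_zero_left]
    rfl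
  ext f : 1
  rw [h2 f]
  rfl

/-- the adjoint of `A s` -/
abbrev B (s : G') : ell2 G →L[ℂ] ell2 G' := ContinuousLinearMap.adjoint (A hj s)

theorem B_delta (s : G') : B hj s (delta 1) = delta s := by
  refine ext_inner_right ℂ fun f => ?_
  rw [ContinuousLinearMap.adjoint_inner_left, inner_delta_left, inner_delta_left, A_apply, map_one,
    one_mul]

theorem A_leftReg (g : G) (s : G') (f : ell2 G') :
    A hj s (leftReg G' (j g) f) = leftReg G g (A hj s f) := by
  ext h
  rw [A_apply, leftReg_apply, leftReg_apply, A_apply, map_mul, map_inv, mul_assoc]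

theorem B_leftReg (g : G) (s : G') (f : ell2 G) :
    leftReg G' (j g) (B hj s f) = B hj s (leftReg G g f) := by
  refine ext_inner_right ℂ fun f' => ?_
  rw [ContinuousLinearMap.adjoint_inner_left]
  have h1 : ⟪leftReg G' (j g) (B hj s f), f'⟫_ℂ = ⟪B hj s f, leftReg G' (j g⁻¹) f'⟫_ℂ := by
    rw [map_inv, ← star_leftReg, ContinuousLinearMap.star_eq_adjoint,
      ContinuousLinearMap.adjoint_inner_right]
  rw [h1, ContinuousLinearMap.adjoint_inner_left, A_leftReg]
  rw [← star_leftReg, ContinuousLinearMap.star_eq_adjoint, ContinuousLinearMap.adjoint_inner_right]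

theorem io_B {x : ell2 G →L[ℂ] ell2 G} (hx : x ∈ LGalg G) (s : G') (f : ell2 G) :
    io hj hx (B hj s f) = B hj s (x f) := by
  refine ext_inner_right ℂ fun f' => ?_
  rw [ContinuousLinearMap.adjoint_inner_left]
  have h1 : ⟪io hj hx (B hj s f), f'⟫_ℂ = ⟪B hj s f, io hj (star_mem' hx) f'⟫_ℂ := by
    rw [← io_star, ContinuousLinearMap.star_eq_adjoint, ContinuousLinearMap.adjoint_inner_right]
  rw [h1, ContinuousLinearMap.adjoint_inner_left, A_io,
    ContinuousLinearMap.star_eq_adjoint, ContinuousLinearMap.adjoint_inner_right]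

theorem io_mem {x : ell2 G →L[ℂ] ell2 G} (hx : x ∈ LGalg G) : io hj hx ∈ LGalg G' := by
  rw [LGalg, VonNeumannAlgebra.mem_commutant_iff]
  intro y hy
  rw [mem_commutantVNA] at hy
  have hy' : ∀ g, leftReg G' g * y = y * leftReg G' g := fun g => hy _ (Or.inl ⟨g, rfl⟩)
  have hc : ∀ s s' : G', (A hj s ∘L y ∘L B hj s') * x = x * (A hj s ∘L y ∘L B hj s') := by
    intro s s'
    refine comm_of_comm_leftReg G hx fun g => ?_
    ext1 f
    rw [mul_apply_eq_comp, mul_apply_eq_comp]
    simp only [ContinuousLinearMap.comp_apply]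
    rw [← A_leftReg, ← B_leftReg]
    have h1 := congrArg (fun T : ell2 G' →L[ℂ] ell2 G' => T (B hj s' f)) (hy' (j g))
    simp only [mul_apply_eq_comp] at h1
    rw [h1]
  have hD : y * io hj hx - io hj hx * y = 0 := by
    refine zero_of_delta _ fun s' => ?_
    ext s
    have h1 := congrArg (fun T : ell2 G →L[ℂ] ell2 G => T (delta 1) 1) (hc s s')
    simp only [mul_apply_eq_comp, ContinuousLinearMap.comp_apply] at h1
    rw [← io_B hj hx, ← A_io hj hx, B_delta, A_apply, A_apply, map_one, one_mul] at h1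
    change (y (io hj hx (delta s'))) s - (io hj hx (y (delta s'))) s = 0
    rw [h1, sub_self]
  exact sub_eq_zero.1 hD

theorem A_delta : A hj 1 (delta 1) = delta 1 := by
  classical
  ext g
  rw [A_apply, delta, delta, lp.single_apply, lp.single_apply, Pi.single_apply, Pi.single_apply,
    mul_one]
  by_cases h : g = 1
  · rw [if_pos h, if_pos (by rw [h, map_one])]
  · rw [if_neg h, if_neg (by intro h'; exact h (hj (by rw [h', map_one])))]

theorem io_delta {x : ell2 G →L[ℂ] ell2 G} (hx : x ∈ LGalg G) :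
    A hj 1 (io hj hx (delta 1)) = x (delta 1) := by
  rw [A_io, A_delta]

end XEmb

open XEmb

/-- [EMB] -/
theorem emb : EmbStmt := by
  intro G G' _ _ j hj
  let hom : (LG G).Elt →⋆ₐ[ℂ] (LG G').Elt :=
    { toFun := fun x => ⟨io hj x.2, io_mem hj x.2⟩
      map_one' := Subtype.ext (io_eq hj (x := (1 : ell2 G →L[ℂ] ell2 G)) (1 : (LG G).Elt).2 1
        fun s f => rfl).symm
      map_mul' := fun x y => Subtype.ext (io_eq hj (x := x.1 * y.1) (x * y).2
        (io hj x.2 * io hj y.2) fun s f => by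
          rw [mul_apply_eq_comp, A_io, A_io]
          rfl).symm
      map_zero' := Subtype.ext (io_eq hj (x := (0 : ell2 G →L[ℂ] ell2 G)) (0 : (LG G).Elt).2 0
        fun s f => by
          change A hj s 0 = 0
          rw [map_zero]).symm
      map_add' := fun x y => Subtype.ext (io_eq hj (x := x.1 + y.1) (x + y).2
        (io hj x.2 + io hj y.2) fun s f => by
          change A hj s (io hj x.2 f + io hj y.2 f) = _
          rw [map_add, A_io, A_io]
          rfl).symm
      commutes' := fun c => Subtype.ext (io_eq hj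
        (x := (algebraMap ℂ (ell2 G →L[ℂ] ell2 G) c)) (algebraMap ℂ (LG G).Elt c).2
        (algebraMap ℂ (ell2 G' →L[ℂ] ell2 G') c) fun s f => by
          change A hj s (c • f) = c • A hj s f
          rw [map_smul]).symm
      map_star' := fun x => Subtype.ext (io_star hj x.2).symm }
  refine ⟨⟨hom, ?_, ?_, ?_⟩, ?_⟩
  · rw [injective_iff_map_eq_zero]
    intro x hx
    have h1 : io hj x.2 = 0 := congrArg Subtype.val hx
    have h3 : A hj 1 (io hj x.2 (delta 1)) = 0 := by
      rw [h1]
      change A hj 1 0 = 0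
      rw [map_zero]
    exact Subtype.ext (ext_of_delta G x.2 ((io_delta hj x.2).symm.trans h3))
  · intro x
    have h3 := congrArg (fun v : ell2 G => v 1) (io_delta hj x.2)
    simp only [A_apply, map_one, one_mul] at h3
    exact (inner_delta_left _ _).trans (h3.trans (inner_delta_left _ _).symm)
  · intro α l x y C hC hw η ζ
    change Tendsto (fun i => ⟪η, io hj (x i).2 ζ⟫_ℂ) l (𝓝 ⟪η, io hj y.2 ζ⟫_ℂ)
    have h1 : ∀ z : (LG G).Elt, ⟪η, io hj z.2 ζ⟫_ℂ = ∑' c : Q j, ⟪AQ hj c η, z.1 (AQ hj c ζ)⟫_ℂ :=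
      fun z => ((inner_io hj z.2 η ζ).tsum_eq).symm
    simp only [h1]
    refine tendsto_tsum_of_dominated_convergence
      (bound := fun c : Q j => |C| * (‖AQ hj c η‖ ^ 2 + ‖AQ hj c ζ‖ ^ 2)) ?_ ?_ ?_
    · exact ((hasSum_sq hj η).summable.add (hasSum_sq hj ζ).summable).mul_left _
    · intro c
      exact hw (AQ hj c η) (AQ hj c ζ)
    · refine Filter.Eventually.of_forall fun i c => ?_
      have h2 : ‖(x i).1‖ ≤ |C| := (hC i).trans (le_abs_self C)
      have h3 : ‖(x i).1 (AQ hj c ζ)‖ ≤ |C| * ‖AQ hj c ζ‖ :=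
        ((x i).1.le_opNorm _).trans (mul_le_mul_of_nonneg_right h2 (norm_nonneg _))
      refine (norm_inner_le_norm _ _).trans ?_
      refine (mul_le_mul_of_nonneg_left h3 (norm_nonneg _)).trans ?_
      have h4 := two_mul_le_add_sq ‖AQ hj c η‖ ‖AQ hj c ζ‖
      have h5 : 0 ≤ ‖AQ hj c η‖ * ‖AQ hj c ζ‖ := by positivity
      nlinarith [abs_nonneg C, mul_nonneg (abs_nonneg C) h5,
        mul_le_mul_of_nonneg_left h4 (abs_nonneg C)]
  · intro g
    exact Subtype.ext (io_eq hj (x := leftReg G g) (lg G g).2 (leftReg G' (j g))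
      fun s f => A_leftReg hj g s f).symm

end

end MP8a6869.CC
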