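import Pool.Agent.Work.MP_8a6869_an.CC.Stmts

/-!
# MP_8a6869_an, commuting copies, item EST: the main estimate
-/

namespace MP8a6869.CC

open MP8a6869 MP8a6869.WR MP8a6869.WR.Contra
open scoped InnerProductSpace ComplexOrder ENNReal
open Filter Topology

noncomputable section

namespace XEst

theorem res_sub' {S : Type} (A : Set S) (f g : ell2 S) : res A f - res A g = res A (f - g) := by
  ext s
  rw [lp.coeFn_sub, Pi.sub_apply]
  by_cases h : s ∈ A
  · rw [res_mem h, res_mem h, res_mem h, lp.coeFn_sub, Pi.sub_apply]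
  · rw [res_notMem h, res_notMem h, res_notMem h, sub_zero]

theorem norm_delta' {S : Type} (s : S) : ‖(delta s : ell2 S)‖ = 1 := by
  classical
  have h : ‖(delta s : ell2 S)‖ ^ 2 = 1 := by
    rw [nsq, tsum_eq_single s]
    · rw [delta, lp.single_apply_self]
      simp
    · intro t ht
      rw [delta, lp.single_apply, Pi.single_apply, if_neg ht]
      simp
  have h0 : 0 ≤ ‖(delta s : ell2 S)‖ := norm_nonneg _
  nlinarith

theorem res_delta {S : Type} {A : Set S} {s : S} (h : s ∈ A) :
    res A (delta s : ell2 S) = delta s := by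
  classical
  ext t
  by_cases ht : t ∈ A
  · rw [res_mem ht]
  · rw [res_notMem ht, delta, lp.single_apply, Pi.single_apply, if_neg]
    rintro rfl
    exact ht h

variable {G : Type} [Group G]

theorem comm_op (x : (LG G).Elt) {T : ell2 G →L[ℂ] ell2 G}
    (hT : ∀ g, leftReg G g * T = T * leftReg G g) (v : ell2 G) : T (op x v) = op x (T v) := by
  have h := comm_of_comm_leftReg G (x := op x) x.2 hT
  have h2 := congrArg (fun y : ell2 G →L[ℂ] ell2 G => y v) h
  exact h2

theorem star_comm {T : ell2 G →L[ℂ] ell2 G} (hT : ∀ g, leftReg G g * T = T * leftReg G g)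
    (g : G) : leftReg G g * star T = star T * leftReg G g := by
  have h := congrArg star (hT g⁻¹)
  rw [star_mul, star_mul, star_leftReg, inv_inv] at h
  exact h.symm

theorem norm_op (x : (LG G).Elt) : ‖op x‖ = ‖x‖ := rfl

theorem op_le (x : (LG G).Elt) {C : ℝ} (hx : ‖x‖ ≤ C) (v : ell2 G) : ‖op x v‖ ≤ C * ‖v‖ :=
  ((op x).le_opNorm v).trans (mul_le_mul_of_nonneg_right hx (norm_nonneg v))

omit [Group G] in
theorem app_le {T : ell2 G →L[ℂ] ell2 G} {C : ℝ} (hT : ‖T‖ ≤ C) (v : ell2 G) : ‖T v‖ ≤ C * ‖v‖ :=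
  (T.le_opNorm v).trans (mul_le_mul_of_nonneg_right hT (norm_nonneg v))

theorem vec_mul (x y : (LG G).Elt) : vec (x * y) = op x (vec y) := rfl

end XEst

/-- [EST] -/
theorem est : EstStmt := by
  intro hRmu hPin hBlk G _ V u w h C W e₁ e₂ e₃ hu hw h1 h2 h3
  obtain ⟨R, hRn, hRc, hRd, hRs⟩ := hRmu G w
  obtain ⟨D, hDn, hDc, hDf, hDV, hDs⟩ := hPin G V R hRc
  obtain ⟨-, hB2, -, hB4⟩ := hBlk G V
  have hC0 : 0 ≤ C := (norm_nonneg u).trans hu
  have hW0 : 0 ≤ W := (norm_nonneg w).trans hw
  have he1 : 0 ≤ e₁ := (norm_nonneg _).trans h1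
  have he2 : 0 ≤ e₂ := (norm_nonneg _).trans h2
  have he3 : 0 ≤ e₃ := (norm_nonneg _).trans h3
  have hRW : ‖R‖ ≤ W := hRn.trans hw
  have hsRW : ‖star R‖ ≤ W := by
    rw [ContinuousLinearMap.star_eq_adjoint]
    exact (LinearIsometryEquiv.norm_map ContinuousLinearMap.adjoint R).le.trans hRW
  have h1V : (1 : G) ∈ (V : Set G) := V.one_mem
  have hdV : res (V : Set G) (delta (1 : G)) = delta 1 := XEst.res_delta h1V
  -- `D δ_1`
  have hD1 : D (delta 1) = res (V : Set G) (vec w) := by
    have := hDV (delta 1)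
    rw [hdV, hRd] at this
    exact this
  have hDu : D (vec u) = op u (res (V : Set G) (vec w)) := by
    have := XEst.comm_op u hDc (delta 1)
    rw [hD1] at this
    exact this
  -- first part
  have ha : ‖leftReg G h (vec u) - D (vec u)‖ ≤ e₁ + C * e₂ := by
    have e : leftReg G h (vec u) - D (vec u) = (leftReg G h (vec u) - op u (vec w)) +
        op u (vec w - res (V : Set G) (vec w)) := by
      rw [hDu, map_sub]
      abel
    rw [e]
    refine (norm_add_le _ _).trans (add_le_add h1 ?_)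
    exact (XEst.op_le u hu _).trans (mul_le_mul_of_nonneg_left h2 hC0)
  -- second part
  have hsD : ∀ g, leftReg G g * star D = star D * leftReg G g := XEst.star_comm hDc
  have hsR : ∀ g, leftReg G g * star R = star R * leftReg G g := XEst.star_comm hRc
  have hsw : (star R) (vec w) = vec (w * star w) := by
    have := XEst.comm_op w hsR (delta 1)
    rw [hRs, ← XEst.vec_mul] at this
    exact this
  have hb1 : ‖(star D) (D (delta 1)) - delta 1‖ ≤ W * e₂ + e₃ := by
    rw [hD1, hDs]
    have e : res (V : Set G) ((star R) (res (V : Set G) (vec w))) - delta 1 =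
        res (V : Set G) ((star R) (res (V : Set G) (vec w) - vec w)) +
          res (V : Set G) (vec (w * star w) - delta 1) := by
      rw [map_sub, hsw, ← XEst.res_sub', ← XEst.res_sub', hdV]
      abel
    rw [e]
    refine (norm_add_le _ _).trans (add_le_add ?_ ((norm_res_le _ _).trans h3))
    refine (norm_res_le _ _).trans ((XEst.app_le hsRW _).trans ?_)
    rw [norm_sub_rev]
    exact mul_le_mul_of_nonneg_left h2 hW0
  have hb2 : ‖(star D) (D (vec u)) - vec u‖ ≤ C * (W * e₂ + e₃) := by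
    have e1 : D (vec u) = op u (D (delta 1)) := XEst.comm_op u hDc (delta 1)
    have e2 : (star D) (D (vec u)) = op u ((star D) (D (delta 1))) := by
      rw [e1]
      exact XEst.comm_op u hsD (D (delta 1))
    have e3 : (star D) (D (vec u)) - vec u = op u ((star D) (D (delta 1)) - delta 1) := by
      rw [e2, map_sub]
      rfl
    rw [e3]
    exact (XEst.op_le u hu _).trans (mul_le_mul_of_nonneg_left hb1 hC0)
  have hvu : ‖vec u‖ ≤ C := by
    have := XEst.op_le u hu (delta 1)
    rw [XEst.norm_delta', mul_one] at this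
    exact this
  have hb : ‖blk V (D (vec u)) - blk V (vec u)‖ ^ 2 ≤ C ^ 2 * (W * e₂ + e₃) := by
    refine (hB4 D hDf (vec u)).trans ?_
    calc ‖vec u‖ * ‖(star D) (D (vec u)) - vec u‖ ≤ C * (C * (W * e₂ + e₃)) :=
          mul_le_mul hvu hb2 (norm_nonneg _) hC0
      _ = C ^ 2 * (W * e₂ + e₃) := by ring
  have hc : ‖blk V (leftReg G h (vec u)) - blk V (vec u)‖ ≤
      ‖blk V (leftReg G h (vec u)) - blk V (D (vec u))‖ + ‖blk V (D (vec u)) - blk V (vec u)‖ :=
    norm_sub_le_norm_sub_add_norm_sub _ _ _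
  have hd := (hB2 (leftReg G h (vec u)) (D (vec u))).trans ha
  have n1 := norm_nonneg (blk V (leftReg G h (vec u)) - blk V (vec u))
  have n2 := norm_nonneg (blk V (leftReg G h (vec u)) - blk V (D (vec u)))
  have n3 := norm_nonneg (blk V (D (vec u)) - blk V (vec u))
  have hsq : ‖blk V (leftReg G h (vec u)) - blk V (D (vec u))‖ ^ 2 ≤ (e₁ + C * e₂) ^ 2 :=
    pow_le_pow_left₀ n2 hd 2
  generalize ‖blk V (leftReg G h (vec u)) - blk V (vec u)‖ = x at hc n1 ⊢
  generalize ‖blk V (leftReg G h (vec u)) - blk V (D (vec u))‖ = y at hc n2 hsq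
  generalize ‖blk V (D (vec u)) - blk V (vec u)‖ = z at hc n3 hb
  have hx : x ^ 2 ≤ (y + z) ^ 2 := pow_le_pow_left₀ n1 hc 2
  nlinarith [sq_nonneg (y - z)]

end

end MP8a6869.CC
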