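import Pool.Agent.Work.MP_8a6869_an.CC.StmtsE

/-!
# MP_8a6869_an, commuting copies, item EXT (helper64)

An extension of an amenable group by an amenable group is amenable.
-/

namespace MP8a6869.CC

open MP8a6869 MP8a6869.WR MP8a6869.WR.Contra
open Filter Topology

noncomputable section

namespace XExt

section Mean

variable {X : Type} {m : Set X → ℝ}

theorem m_empty (h2 : ∀ A B : Set X, Disjoint A B → m (A ∪ B) = m A + m B) : m ∅ = 0 := by
  have h := h2 ∅ ∅ disjoint_bot_left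
  rw [Set.union_empty] at h
  linarith

theorem m_mono (h0 : ∀ A : Set X, 0 ≤ m A)
    (h2 : ∀ A B : Set X, Disjoint A B → m (A ∪ B) = m A + m B) {A B : Set X} (hAB : A ⊆ B) :
    m A ≤ m B := by
  have h := h2 A (B \ A) Set.disjoint_sdiff_right
  rw [Set.union_sdiff_cancel hAB] at h
  linarith [h0 (B \ A)]

/-- Finite additivity over the fibres of a map. -/
theorem m_fib {ι : Type} [DecidableEq ι]
    (h2 : ∀ A B : Set X, Disjoint A B → m (A ∪ B) = m A + m B) (c : X → ι) (T : Finset ι) :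
    ∑ i ∈ T, m {x | c x = i} = m {x | c x ∈ T} := by
  induction T using Finset.induction_on with
  | empty =>
    rw [Finset.sum_empty]
    have : {x | c x ∈ (∅ : Finset ι)} = (∅ : Set X) := by
      ext x
      simp
    rw [this, m_empty h2]
  | insert a T ha ih =>
    rw [Finset.sum_insert ha, ih, ← h2]
    · congr 1
      ext x
      simp only [Set.mem_union, Set.mem_ofPred_eq, Finset.mem_insert]
    · rw [Set.disjoint_left]
      intro x hx hx2
      simp only [Set.mem_ofPred_eq] at hx hx2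
      rw [hx] at hx2
      exact ha hx2

/-- The weighted sum over a coarser partition. -/
theorem push {ι : Type} [DecidableEq ι]
    (h2 : ∀ A B : Set X, Disjoint A B → m (A ∪ B) = m A + m B) (c : X → ι) (T : Finset ι)
    (hc : ∀ x, c x ∈ T) (R : Finset ℕ) (p : ι → ℕ) (hp : ∀ t ∈ T, p t ∈ R) (w : ℕ → ℝ) :
    ∑ t ∈ T, w (p t) * m {x | c x = t} = ∑ j ∈ R, w j * m {x | p (c x) = j} := by
  rw [← Finset.sum_fiberwise_of_maps_to hp]
  refine Finset.sum_congr rfl fun j _ => ?_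
  have h1 : ∑ t ∈ T with p t = j, w (p t) * m {x | c x = t} =
      ∑ t ∈ T with p t = j, w j * m {x | c x = t} := by
    refine Finset.sum_congr rfl fun t ht => ?_
    rw [(Finset.mem_filter.1 ht).2]
  rw [h1, ← Finset.mul_sum, m_fib h2]
  congr 2
  ext x
  simp only [Finset.mem_filter, Set.mem_ofPred_eq]
  exact ⟨fun h => h.2, fun h => ⟨hc x, h⟩⟩

/-- The approximate integral. -/
def Ik (m : Set X → ℝ) (k : ℕ) (f : X → ℝ) : ℝ :=
  ∑ j ∈ Finset.range (k + 1), ((j : ℝ) / k) * m {x | ⌊(k : ℝ) * f x⌋₊ = j}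

theorem Ik_nonneg (h0 : ∀ A : Set X, 0 ≤ m A) (k : ℕ) (f : X → ℝ) : 0 ≤ Ik m k f :=
  Finset.sum_nonneg fun j _ => mul_nonneg (by positivity) (h0 _)

theorem Ik_le_one (h0 : ∀ A : Set X, 0 ≤ m A) (h1 : m Set.univ = 1)
    (h2 : ∀ A B : Set X, Disjoint A B → m (A ∪ B) = m A + m B) (k : ℕ) (f : X → ℝ) :
    Ik m k f ≤ 1 := by
  have h : Ik m k f ≤ ∑ j ∈ Finset.range (k + 1), m {x | ⌊(k : ℝ) * f x⌋₊ = j} := by
    refine Finset.sum_le_sum fun j hj => ?_
    have h3 : (j : ℝ) / k ≤ 1 := by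
      refine div_le_one_of_le₀ ?_ (Nat.cast_nonneg k)
      have := Finset.mem_range_succ_iff.1 hj
      exact_mod_cast this
    exact mul_le_of_le_one_left (h0 _) h3
  rw [m_fib h2] at h
  exact h.trans ((m_mono h0 h2 (Set.subset_univ _)).trans h1.le)

theorem Ik_one (h1 : m Set.univ = 1) (h2 : ∀ A B : Set X, Disjoint A B → m (A ∪ B) = m A + m B)
    (k : ℕ) (hk : 1 ≤ k) : Ik m k (fun _ => 1) = 1 := by
  unfold Ik
  rw [Finset.sum_eq_single k]
  · have h3 : {x : X | ⌊(k : ℝ) * 1⌋₊ = k} = Set.univ := by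
      ext x
      simp
    rw [h3, h1, mul_one, div_self]
    have : 0 < k := by omega
    positivity
  · intro j _ hjk
    have h3 : {x : X | ⌊(k : ℝ) * 1⌋₊ = j} = ∅ := by
      ext x
      simp only [mul_one, Nat.floor_natCast, Set.mem_ofPred_eq, Set.mem_empty_iff_false, iff_false]
      exact fun h => hjk h.symm
    rw [h3, m_empty h2, mul_zero]
  · intro h
    exact absurd (Finset.mem_range.2 (Nat.lt_succ_self k)) h

theorem Ik_inv (σ : X → X) (hσ : ∀ A : Set X, m (σ ⁻¹' A) = m A) (k : ℕ) (f : X → ℝ) :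
    Ik m k (fun x => f (σ x)) = Ik m k f := by
  unfold Ik
  refine Finset.sum_congr rfl fun j _ => ?_
  rw [← hσ {x | ⌊(k : ℝ) * f x⌋₊ = j}]
  rfl

theorem Ik_add (h0 : ∀ A : Set X, 0 ≤ m A) (h1 : m Set.univ = 1)
    (h2 : ∀ A B : Set X, Disjoint A B → m (A ∪ B) = m A + m B) (k : ℕ) (hk : 1 ≤ k)
    (f g : X → ℝ) (hf : ∀ x, 0 ≤ f x) (hg : ∀ x, 0 ≤ g x) (hfg : ∀ x, f x + g x ≤ 1) :
    |Ik m k (fun x => f x + g x) - (Ik m k f + Ik m k g)| ≤ 1 / k := by
  have hk0 : (0 : ℝ) < k := by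
    have : 0 < k := by omega
    exact_mod_cast this
  obtain ⟨c, hc⟩ : ∃ c : X → ℕ × ℕ × ℕ, ∀ x, c x =
      (⌊(k : ℝ) * f x⌋₊, ⌊(k : ℝ) * g x⌋₊, ⌊(k : ℝ) * (f x + g x)⌋₊) := ⟨_, fun _ => rfl⟩
  obtain ⟨T, hT⟩ : ∃ T : Finset (ℕ × ℕ × ℕ), T =
      Finset.range (k + 1) ×ˢ (Finset.range (k + 1) ×ˢ Finset.range (k + 1)) := ⟨_, rfl⟩
  have hfl : ∀ y : ℝ, y ≤ 1 → ⌊(k : ℝ) * y⌋₊ ∈ Finset.range (k + 1) := by
    intro y hy
    rw [Finset.mem_range_succ_iff]
    have h3 : (k : ℝ) * y ≤ k := by nlinarith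
    calc ⌊(k : ℝ) * y⌋₊ ≤ ⌊(k : ℝ)⌋₊ := Nat.floor_le_floor h3
      _ = k := Nat.floor_natCast k
  have hcT : ∀ x, c x ∈ T := by
    intro x
    rw [hc, hT, Finset.mem_product, Finset.mem_product]
    exact ⟨hfl _ (by linarith [hg x, hfg x]), hfl _ (by linarith [hf x, hfg x]), hfl _ (hfg x)⟩
  have hp1 : ∀ t ∈ T, t.1 ∈ Finset.range (k + 1) := by
    intro t ht
    rw [hT, Finset.mem_product, Finset.mem_product] at ht
    exact ht.1
  have hp2 : ∀ t ∈ T, t.2.1 ∈ Finset.range (k + 1) := by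
    intro t ht
    rw [hT, Finset.mem_product, Finset.mem_product] at ht
    exact ht.2.1
  have hp3 : ∀ t ∈ T, t.2.2 ∈ Finset.range (k + 1) := by
    intro t ht
    rw [hT, Finset.mem_product, Finset.mem_product] at ht
    exact ht.2.2
  have e1 : Ik m k f = ∑ t ∈ T, ((t.1 : ℝ) / k) * m {x | c x = t} := by
    rw [push h2 c T hcT (Finset.range (k + 1)) (fun t => t.1) hp1 (fun j => (j : ℝ) / k)]
    simp only [hc]
    rfl
  have e2 : Ik m k g = ∑ t ∈ T, ((t.2.1 : ℝ) / k) * m {x | c x = t} := by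
    rw [push h2 c T hcT (Finset.range (k + 1)) (fun t => t.2.1) hp2 (fun j => (j : ℝ) / k)]
    simp only [hc]
    rfl
  have e3 : Ik m k (fun x => f x + g x) = ∑ t ∈ T, ((t.2.2 : ℝ) / k) * m {x | c x = t} := by
    rw [push h2 c T hcT (Finset.range (k + 1)) (fun t => t.2.2) hp3 (fun j => (j : ℝ) / k)]
    simp only [hc]
    rfl
  have e4 : Ik m k (fun x => f x + g x) - (Ik m k f + Ik m k g) =
      ∑ t ∈ T, (((t.2.2 : ℝ) - t.1 - t.2.1) / k) * m {x | c x = t} := by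
    rw [e1, e2, e3, ← Finset.sum_add_distrib, ← Finset.sum_sub_distrib]
    refine Finset.sum_congr rfl fun t _ => ?_
    ring
  rw [e4]
  have h5 : ∀ t ∈ T, |(((t.2.2 : ℝ) - t.1 - t.2.1) / k) * m {x | c x = t}| ≤
      (1 / k) * m {x | c x = t} := by
    intro t _
    by_cases hne : ∃ x, c x = t
    · obtain ⟨x, hx⟩ := hne
      rw [abs_mul, abs_of_nonneg (h0 _), abs_div, abs_of_pos hk0]
      refine mul_le_mul_of_nonneg_right ?_ (h0 _)
      refine div_le_div_of_nonneg_right ?_ hk0.le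
      rw [← hx, hc]
      have b1 := Nat.floor_le (mul_nonneg hk0.le (hf x))
      have b2 := Nat.floor_le (mul_nonneg hk0.le (hg x))
      have b3 := Nat.floor_le (mul_nonneg hk0.le (add_nonneg (hf x) (hg x)))
      have b4 := Nat.lt_floor_add_one ((k : ℝ) * f x)
      have b5 := Nat.lt_floor_add_one ((k : ℝ) * g x)
      have b6 := Nat.lt_floor_add_one ((k : ℝ) * (f x + g x))
      simp only
      have b7 : ((⌊(k : ℝ) * (f x + g x)⌋₊ : ℝ)) <
          (⌊(k : ℝ) * f x⌋₊ : ℝ) + ⌊(k : ℝ) * g x⌋₊ + 2 := by nlinarith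
      have b8 : ((⌊(k : ℝ) * f x⌋₊ : ℝ)) + ⌊(k : ℝ) * g x⌋₊ <
          ⌊(k : ℝ) * (f x + g x)⌋₊ + 1 := by nlinarith
      have b9 : ⌊(k : ℝ) * (f x + g x)⌋₊ < ⌊(k : ℝ) * f x⌋₊ + ⌊(k : ℝ) * g x⌋₊ + 2 := by
        exact_mod_cast b7
      have b10 : ⌊(k : ℝ) * f x⌋₊ + ⌊(k : ℝ) * g x⌋₊ < ⌊(k : ℝ) * (f x + g x)⌋₊ + 1 := by
        exact_mod_cast b8
      have b11 : ⌊(k : ℝ) * (f x + g x)⌋₊ ≤ ⌊(k : ℝ) * f x⌋₊ + ⌊(k : ℝ) * g x⌋₊ + 1 := by omega
      have b12 : ⌊(k : ℝ) * f x⌋₊ + ⌊(k : ℝ) * g x⌋₊ ≤ ⌊(k : ℝ) * (f x + g x)⌋₊ := by omega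
      have b13 : ((⌊(k : ℝ) * (f x + g x)⌋₊ : ℝ)) ≤
          (⌊(k : ℝ) * f x⌋₊ : ℝ) + ⌊(k : ℝ) * g x⌋₊ + 1 := by exact_mod_cast b11
      have b14 : ((⌊(k : ℝ) * f x⌋₊ : ℝ)) + ⌊(k : ℝ) * g x⌋₊ ≤
          ⌊(k : ℝ) * (f x + g x)⌋₊ := by exact_mod_cast b12
      rw [abs_le]
      constructor <;> linarith
    · have h6 : {x | c x = t} = (∅ : Set X) := by
        ext x
        simp only [Set.mem_ofPred_eq, Set.mem_empty_iff_false, iff_false]
        exact fun h => hne ⟨x, h⟩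
      rw [h6, m_empty h2]
      simp
  refine (Finset.abs_sum_le_sum_abs _ _).trans ((Finset.sum_le_sum h5).trans ?_)
  rw [← Finset.mul_sum, m_fib h2]
  have h7 : {x | c x ∈ T} = Set.univ := Set.eq_univ_of_forall hcT
  rw [h7, h1, mul_one]

/-- The integral of a finitely additive probability measure. -/
theorem integral (h0 : ∀ A : Set X, 0 ≤ m A) (h1 : m Set.univ = 1)
    (h2 : ∀ A B : Set X, Disjoint A B → m (A ∪ B) = m A + m B) :
    ∃ I : (X → ℝ) → ℝ, I (fun _ => 1) = 1 ∧ (∀ f, 0 ≤ I f) ∧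
      (∀ f g : X → ℝ, (∀ x, 0 ≤ f x) → (∀ x, 0 ≤ g x) → (∀ x, f x + g x ≤ 1) →
        I (fun x => f x + g x) = I f + I g) ∧
      (∀ σ : X → X, (∀ A : Set X, m (σ ⁻¹' A) = m A) → ∀ f : X → ℝ,
        I (fun x => f (σ x)) = I f) := by
  have hlim : ∀ f : X → ℝ, ∃ y : ℝ,
      Tendsto (fun k => Ik m k f) (hyperfilter ℕ : Filter ℕ) (𝓝 y) := by
    intro f
    have h3 : (Ultrafilter.map (fun k => Ik m k f) (hyperfilter ℕ) : Filter ℝ) ≤
        𝓟 (Set.Icc 0 1) := by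
      rw [le_principal_iff]
      have h4 : Set.Icc (0 : ℝ) 1 ∈ Ultrafilter.map (fun k => Ik m k f) (hyperfilter ℕ) := by
        rw [Ultrafilter.mem_map]
        have h5 : (fun k => Ik m k f) ⁻¹' (Set.Icc (0 : ℝ) 1) = Set.univ :=
          Set.eq_univ_of_forall fun k => ⟨Ik_nonneg h0 k f, Ik_le_one h0 h1 h2 k f⟩
        rw [h5]
        exact Filter.univ_mem
      exact h4
    obtain ⟨y, _, hy⟩ := isCompact_Icc.ultrafilter_le_nhds _ h3
    exact ⟨y, hy⟩
  choose I hI using hlim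
  have hev : ∀ᶠ k in (hyperfilter ℕ : Filter ℕ), 1 ≤ k := by
    have h3 : ∀ᶠ k in (atTop : Filter ℕ), 1 ≤ k := eventually_ge_atTop 1
    exact (Nat.hyperfilter_le_atTop) h3
  refine ⟨I, ?_, ?_, ?_, ?_⟩
  · refine tendsto_nhds_unique (hI _) ?_
    refine tendsto_const_nhds.congr' ?_
    filter_upwards [hev] with k hk
    rw [Ik_one h1 h2 k hk]
  · intro f
    exact ge_of_tendsto' (hI f) fun k => Ik_nonneg h0 k f
  · intro f g hf hg hfg
    have h4 : Tendsto (fun k : ℕ => 1 / (k : ℝ)) (hyperfilter ℕ : Filter ℕ) (𝓝 0) :=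
      tendsto_one_div_atTop_nhds_zero_nat.mono_left Nat.hyperfilter_le_atTop
    have h5 : Tendsto (fun k => Ik m k (fun x => f x + g x) - (Ik m k f + Ik m k g))
        (hyperfilter ℕ : Filter ℕ) (𝓝 0) := by
      refine squeeze_zero_norm' ?_ h4
      filter_upwards [hev] with k hk
      rw [Real.norm_eq_abs]
      exact Ik_add h0 h1 h2 k hk f g hf hg hfg
    have h6 := tendsto_nhds_unique h5 ((hI (fun x => f x + g x)).sub ((hI f).add (hI g)))
    linarith
  · intro σ hσ f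
    refine tendsto_nhds_unique (hI _) ((hI f).congr fun k => ?_)
    rw [Ik_inv σ hσ]

end Mean

/-- The surjective case. -/
theorem ext_surj (A B : Type) [Group A] [Group B] (f : A →* B) (hf : Function.Surjective f)
    (N : Subgroup A) (hN : ∀ a, a ∈ N ↔ f a = 1) (hNa : IsAmen N) (hB : IsAmen B) :
    IsAmen A := by
  obtain ⟨mN, n0, n1, n2, n3⟩ := hNa
  obtain ⟨mB, b0, b1, b2, b3⟩ := hB
  obtain ⟨I, I1, I0, Iadd, Iinv⟩ := integral b0 b1 b2
  choose s hs using hf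
  obtain ⟨φ, hφ⟩ : ∃ φ : Set A → B → ℝ, ∀ S b, φ S b = mN {n : N | s b * (n : A) ∈ S} :=
    ⟨_, fun _ _ => rfl⟩
  have hφ0 : ∀ S b, 0 ≤ φ S b := fun S b => by
    rw [hφ]
    exact n0 _
  have hφ1 : ∀ S b, φ S b ≤ 1 := fun S b => by
    rw [hφ]
    exact (m_mono n0 n2 (Set.subset_univ _)).trans n1.le
  have hindep : ∀ (S : Set A) (a : A), mN {n : N | a * (n : A) ∈ S} = φ S (f a) := by
    intro S a
    have hk : (s (f a))⁻¹ * a ∈ N := by
      rw [hN, map_mul, map_inv, hs, inv_mul_cancel]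
    obtain ⟨k, hk2⟩ : ∃ k : N, (k : A) = (s (f a))⁻¹ * a := ⟨⟨_, hk⟩, rfl⟩
    rw [hφ, ← n3 k {n : N | a * (n : A) ∈ S}]
    congr 1
    ext x
    simp only [Set.mem_image, Set.mem_ofPred_eq]
    constructor
    · rintro ⟨y, hy, rfl⟩
      rw [Subgroup.coe_mul, hk2]
      have : s (f a) * ((s (f a))⁻¹ * a * (y : A)) = a * y := by group
      rw [this]
      exact hy
    · intro hx
      refine ⟨k⁻¹ * x, ?_, by group⟩
      rw [Subgroup.coe_mul, Subgroup.coe_inv, hk2]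
      have : a * (((s (f a))⁻¹ * a)⁻¹ * (x : A)) = s (f a) * x := by group
      rw [this]
      exact hx
  have htr : ∀ (a : A) (S : Set A) (b : B),
      φ ((fun x => a * x) '' S) b = φ S ((f a)⁻¹ * b) := by
    intro a S b
    have h4 : (f a)⁻¹ * b = f (a⁻¹ * s b) := by rw [map_mul, map_inv, hs]
    rw [h4, ← hindep, hφ]
    congr 1
    ext n
    simp only [Set.mem_image, Set.mem_ofPred_eq]
    constructor
    · rintro ⟨y, hy, hyx⟩
      have : a⁻¹ * s b * (n : A) = y := by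
        rw [mul_assoc, ← hyx]
        group
      rw [this]
      exact hy
    · intro hx
      exact ⟨_, hx, by group⟩
  refine ⟨fun S => I (φ S), fun S => I0 _, ?_, ?_, ?_⟩
  · have h5 : φ Set.univ = fun _ => 1 := by
      funext b
      rw [hφ, ← n1]
      congr 1
    change I (φ Set.univ) = 1
    rw [h5, I1]
  · intro S T hST
    have h5 : φ (S ∪ T) = fun b => φ S b + φ T b := by
      funext b
      rw [hφ, hφ, hφ, ← n2]
      · rfl
      · rw [Set.disjoint_left]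
        intro n h6 h7
        exact Set.disjoint_left.1 hST h6 h7
    change I (φ (S ∪ T)) = I (φ S) + I (φ T)
    rw [h5]
    refine Iadd _ _ (hφ0 S) (hφ0 T) fun b => ?_
    have := hφ1 (S ∪ T) b
    rw [h5] at this
    exact this
  · intro a S
    change I (φ ((fun x => a * x) '' S)) = I (φ S)
    have h5 : φ ((fun x => a * x) '' S) = fun b => φ S ((fun b => (f a)⁻¹ * b) b) := by
      funext b
      exact htr a S b
    rw [h5]
    refine Iinv (fun b => (f a)⁻¹ * b) ?_ (φ S)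
    intro C
    have h6 : (fun b => (f a)⁻¹ * b) ⁻¹' C = (fun x => f a * x) '' C := by
      ext x
      simp only [Set.mem_image, Set.mem_preimage]
      constructor
      · intro hx
        exact ⟨_, hx, by group⟩
      · rintro ⟨y, hy, rfl⟩
        rwa [inv_mul_cancel_left]
    rw [h6, b3]

end XExt

theorem ext : ExtStmt := by
  intro hsub A B _ _ f hN hB
  have hR : IsAmen f.range := hsub f.range B f.range.subtype Subtype.val_injective hB
  refine XExt.ext_surj A f.range f.rangeRestrict f.rangeRestrict_surjective f.ker (fun a => ?_)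
    hN hR
  rw [MonoidHom.mem_ker, Subtype.ext_iff]
  rfl

end

end MP8a6869.CC
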