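import Pool.Agent.Work.MP_8a6869_an.CC.Stmts

/-!
# MP_8a6869_an, commuting copies, item FLP: the flip
-/

namespace MP8a6869.CC

open MP8a6869 MP8a6869.WR MP8a6869.WR.Contra
open scoped InnerProductSpace ComplexOrder ENNReal
open Filter Topology

noncomputable section

namespace XFlp

theorem gen_ne : (Multiplicative.ofAdd 1 : Multiplicative (ZMod 2)) ≠ 1 := by decide

theorem cases2 (x : Multiplicative (ZMod 2)) : x = 1 ∨ x = Multiplicative.ofAdd 1 := by
  revert x
  decide

variable (G : Type) [Group G]

@[simp] theorem inl2_left (g : G) : (inl2 G g).left = Pi.mulSingle 1 g := rfl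

@[simp] theorem inl2_right (g : G) : (inl2 G g).right = 1 := rfl

@[simp] theorem flip2_left : (flip2 G).left = 1 := rfl

@[simp] theorem flip2_right : (flip2 G).right = Multiplicative.ofAdd 1 := rfl

theorem conj_left (h : G) : ((flip2 G)⁻¹ * inl2 G h * flip2 G).left 1 = 1 := by
  simp [Pi.mulSingle_apply]

theorem conj_right (h : G) : ((flip2 G)⁻¹ * inl2 G h * flip2 G).right = 1 := by
  simp

/-- Elements with trivial right component. -/
theorem mul_comm_of (a b : Wr2 G) (ha : a.right = 1) (hb : b.right = 1)
    (h : ∀ x, a.left x * b.left x = b.left x * a.left x) : a * b = b * a := by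
  ext x
  · simp [ha, hb, h x]
  · simp [ha, hb]

end XFlp

open XFlp in
theorem flp : FlpStmt := by
  intro G _
  refine ⟨fun g h hgh => ?_, fun g h => ?_⟩
  · have h1 : (inl2 G g).left 1 = (inl2 G h).left 1 := by rw [hgh]
    simpa using h1
  · refine mul_comm_of G _ _ (inl2_right G g) (conj_right G h) fun x => ?_
    rcases cases2 x with rfl | rfl
    · rw [conj_left, mul_one, one_mul]
    · have h1 : (inl2 G g).left (Multiplicative.ofAdd 1) = 1 := by
        rw [inl2_left, Pi.mulSingle_eq_of_ne gen_ne]
      rw [h1, mul_one, one_mul]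

end

end MP8a6869.CC
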