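import Pool.Agent.Work.MP_8a6869_an.CC.Stmts

/-!
# MP_8a6869_an, commuting copies, item ICC
-/

namespace MP8a6869.CC

open MP8a6869 MP8a6869.WR MP8a6869.WR.Contra
open scoped InnerProductSpace ComplexOrder ENNReal
open Filter Topology

noncomputable section

namespace XIcc

theorem conj_left {G : Type} [Group G] (p : Wr2 G) (x : Multiplicative (ZMod 2)) (h : G)
    (y : Multiplicative (ZMod 2)) :
    ((⟨Pi.mulSingle x h, 1⟩ : Wr2 G) * p * (⟨Pi.mulSingle x h, 1⟩ : Wr2 G)⁻¹).left y =
      Pi.mulSingle (M := fun _ => G) x h y * p.left y *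
        (Pi.mulSingle (M := fun _ => G) x h (p.right⁻¹ * y))⁻¹ := by
  simp only [RegularWreathProduct.mul_left, RegularWreathProduct.mul_right,
    RegularWreathProduct.inv_left, Pi.mul_apply, Pi.inv_apply, inv_one, one_mul]

end XIcc

open XIcc in
/-- ICC. -/
theorem icc : IccStmt := by
  intro G _ _ _ hG
  constructor
  · have : Finite (Multiplicative (ZMod 2)) := inferInstanceAs (Finite (ZMod 2))
    exact (RegularWreathProduct.equivProd G (Multiplicative (ZMod 2))).injective.countable
  · intro p hp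
    by_cases hr : p.right = 1
    · have hx : ∃ x, p.left x ≠ 1 := by
        by_contra hne
        push Not at hne
        apply hp
        ext x
        · rw [hne x]
          rfl
        · rw [hr]
          rfl
      obtain ⟨x, hx⟩ := hx
      have h1 := hG (p.left x) hx
      have h2 : (Set.range fun h : G => h * p.left x * h⁻¹) ⊆
          (fun q : Wr2 G => q.left x) '' (Set.range fun h : Wr2 G => h * p * h⁻¹) := by
        rintro _ ⟨h, rfl⟩
        refine ⟨_, ⟨⟨Pi.mulSingle x h, 1⟩, rfl⟩, ?_⟩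
        show ((⟨Pi.mulSingle x h, 1⟩ : Wr2 G) * p * (⟨Pi.mulSingle x h, 1⟩ : Wr2 G)⁻¹).left x = _
        rw [conj_left, hr, inv_one, one_mul, Pi.mulSingle_eq_same]
      exact Set.Infinite.of_image _ (h1.mono h2)
    · have h1 : (Set.univ : Set G).Infinite := Set.infinite_univ
      have h2 : (Set.univ : Set G) ⊆
          (fun q : Wr2 G => q.left 1 * (p.left 1)⁻¹) ''
            (Set.range fun h : Wr2 G => h * p * h⁻¹) := by
        intro h _
        refine ⟨_, ⟨⟨Pi.mulSingle 1 h, 1⟩, rfl⟩, ?_⟩
        show ((⟨Pi.mulSingle 1 h, 1⟩ : Wr2 G) * p * (⟨Pi.mulSingle 1 h, 1⟩ : Wr2 G)⁻¹).left 1 *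
          (p.left 1)⁻¹ = h
        have hr' : p.right⁻¹ * 1 ≠ 1 := by
          rw [mul_one]
          exact inv_ne_one.2 hr
        rw [conj_left, Pi.mulSingle_eq_same, Pi.mulSingle_eq_of_ne hr', inv_one, mul_one,
          mul_inv_cancel_right]
      exact Set.Infinite.of_image _ (h1.mono h2)

end

end MP8a6869.CC
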