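import Pool.Agent.Work.MP_8a6869_an.CC.Stmts

/-!
# MP_8a6869_an, commuting copies, item MAS: the mass outside `V` (helper17)
-/

namespace MP8a6869.CC

open MP8a6869 MP8a6869.WR MP8a6869.WR.Contra
open scoped InnerProductSpace ComplexOrder ENNReal
open Filter Topology

noncomputable section

namespace XMas

variable {G : Type} [Group G]

/-- the conjugation action of a subgroup -/
@[instance_reducible]
def act (H : Subgroup G) : MulAction H G where
  smul h z := (h : G) * z * (h : G)⁻¹
  one_smul z := by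
    change ((1 : H) : G) * z * ((1 : H) : G)⁻¹ = z
    simp
  mul_smul a b z := by
    change ((a * b : H) : G) * z * ((a * b : H) : G)⁻¹ = (a : G) * ((b : G) * z * (b : G)⁻¹) *
      (a : G)⁻¹
    rw [Subgroup.coe_mul, mul_inv_rev]
    group

theorem mass_le {k : ℕ} (V : Set G) (S : Fin k → Set G) (h : ∀ z, z ∉ V → ∃ i, z ∈ S i)
    (f : ell2 G) : ‖f - res V f‖ ^ 2 ≤ ∑ i, ‖res (S i) f‖ ^ 2 := by
  have h1 : f - res V f = res Vᶜ f := sub_eq_of_eq_add' (res_add_res V f).symm
  rw [h1, nsq]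
  have e : ∑ i, ‖res (S i) f‖ ^ 2 = ∑' x, ∑ i, ‖res (S i) f x‖ ^ 2 := by
    rw [Summable.tsum_finsetSum (fun i _ => summ _)]
    exact Finset.sum_congr rfl fun i _ => nsq _
  rw [e]
  refine Summable.tsum_le_tsum (fun x => ?_) (summ _) (summable_sum fun i _ => summ _)
  by_cases hx : x ∈ V
  · have hx' : x ∉ Vᶜ := fun h2 => h2 hx
    rw [res_notMem hx', norm_zero]
    exact le_trans (by norm_num) (Finset.sum_nonneg fun i _ => sq_nonneg _)
  · obtain ⟨i, hi⟩ := h x hx
    rw [res_mem (show x ∈ Vᶜ from hx)]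
    calc ‖f x‖ ^ 2 = ‖res (S i) f x‖ ^ 2 := by rw [res_mem hi]
      _ ≤ ∑ i, ‖res (S i) f x‖ ^ 2 :=
        Finset.single_le_sum (f := fun i => ‖res (S i) f x‖ ^ 2) (fun i _ => sq_nonneg _)
          (Finset.mem_univ i)

end XMas

open XMas in
theorem mas : MasStmt := by
  intro hConc U G _ k Γ V hΓ hV v hv hinv
  have key : ∀ i : Fin k, ∃ S : Set G,
      (∀ z, IsAmen ((Subgroup.centralizer {z}).subgroupOf (Γ i)) → z ∈ S) ∧
      Tendsto (fun n => ‖res S (v n)‖ ^ 2) U (𝓝 0) := by
    intro i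
    letI : MulAction (Γ i) G := act (Γ i)
    refine ⟨{x | IsAmen (MulAction.stabilizer (Γ i) x)}, ?_, ?_⟩
    · intro z hz
      have hst : MulAction.stabilizer (Γ i) z = (Subgroup.centralizer {z}).subgroupOf (Γ i) := by
        ext h
        rw [MulAction.mem_stabilizer_iff, Subgroup.mem_subgroupOf,
          Subgroup.mem_centralizer_singleton_iff]
        change ((h : G) * z * (h : G)⁻¹ = z) ↔ _
        rw [mul_inv_eq_iff_eq_mul]
      rw [Set.mem_ofPred_eq, hst]
      exact hz
    · have h1 := hConc (Γ i) G (hΓ i) U v hv ?_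
      · refine h1.congr fun n => ?_
        rw [norm_res_sq]
        rfl
      · intro γ
        refine (hinv ((γ : G)⁻¹)).congr fun n => ?_
        congr 2
        ext z
        rw [leftReg_apply, rightReg_apply, permL_apply, inv_inv]
        rfl
  choose S hS1 hS2 using key
  have hle : ∀ n, ‖v n - res (V : Set G) (v n)‖ ^ 2 ≤ ∑ i, ‖res (S i) (v n)‖ ^ 2 := fun n =>
    mass_le (V : Set G) S (fun z hz => by
      obtain ⟨i, hi⟩ := hV z hz
      exact ⟨i, hS1 i z hi⟩) (v n)
  have hsum : Tendsto (fun n => ∑ i, ‖res (S i) (v n)‖ ^ 2) U (𝓝 0) := by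
    have := tendsto_finsetSum (Finset.univ : Finset (Fin k)) (fun i _ => hS2 i)
    simpa using this
  have hzero : Tendsto (fun n => ‖v n - res (V : Set G) (v n)‖ ^ 2) U (𝓝 0) :=
    squeeze_zero (fun n => sq_nonneg _) hle hsum
  have h5 := (Real.continuous_sqrt.tendsto _).comp hzero
  simpa [Function.comp_def, Real.sqrt_sq] using h5

end

end MP8a6869.CC
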