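import Pool.Agent.Work.MP_8a6869_an.CC.Stmts

/-!
# MP_8a6869_an, commuting copies: pinching to the cosets of a subgroup
-/

namespace MP8a6869.CC

open MP8a6869 MP8a6869.WR MP8a6869.WR.Contra
open scoped InnerProductSpace ComplexOrder ENNReal
open Filter Topology

noncomputable section

namespace XPin

section basic

variable {S : Type}

theorem res_add (A : Set S) (f g : ell2 S) : res A (f + g) = res A f + res A g := by
  ext s
  rw [lp.coeFn_add, Pi.add_apply]
  by_cases h : s ∈ A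
  · rw [res_mem h, res_mem h, res_mem h, lp.coeFn_add, Pi.add_apply]
  · rw [res_notMem h, res_notMem h, res_notMem h, add_zero]

theorem res_smul (A : Set S) (c : ℂ) (f : ell2 S) : res A (c • f) = c • res A f := by
  ext s
  rw [lp.coeFn_smul, Pi.smul_apply]
  by_cases h : s ∈ A
  · rw [res_mem h, res_mem h, lp.coeFn_smul, Pi.smul_apply]
  · rw [res_notMem h, res_notMem h, smul_zero]

theorem res_res (A : Set S) (f : ell2 S) : res A (res A f) = res A f := by
  ext s
  by_cases h : s ∈ A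
  · rw [res_mem h]
  · rw [res_notMem h, res_notMem h]

theorem inner_res (A : Set S) (f g : ell2 S) : ⟪res A f, g⟫_ℂ = ⟪f, res A g⟫_ℂ := by
  rw [lp.inner_eq_tsum, lp.inner_eq_tsum]
  refine tsum_congr fun s => ?_
  by_cases h : s ∈ A
  · rw [res_mem h, res_mem h]
  · rw [res_notMem h, res_notMem h, inner_zero_left, inner_zero_right]

theorem sum_sq_le (f : ell2 S) (F : Finset S) : ∑ x ∈ F, ‖f x‖ ^ 2 ≤ ‖f‖ ^ 2 := by
  rw [nsq]
  exact (summ f).sum_le_tsum F fun _ _ => by positivity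

end basic

variable {G : Type} [Group G]

/-- The values of the pinching. -/
def pf (V : Subgroup G) (T : ell2 G →L[ℂ] ell2 G) (f : ell2 G) (x : G) : ℂ :=
  T (res (fib V (QuotientGroup.mk x)) f) x

theorem mem_fib {V : Subgroup G} {c : G ⧸ V} {x : G} :
    x ∈ fib V c ↔ (QuotientGroup.mk x : G ⧸ V) = c := Iff.rfl

theorem bound (V : Subgroup G) (T : ell2 G →L[ℂ] ell2 G) (f : ell2 G) (F : Finset G) :
    ∑ x ∈ F, ‖pf V T f x‖ ^ 2 ≤ (‖T‖ * ‖f‖) ^ 2 := by
  classical
  have h1 : ∑ x ∈ F, ‖pf V T f x‖ ^ 2 =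
      ∑ c ∈ F.image (fun x => (QuotientGroup.mk x : G ⧸ V)),
        ∑ x ∈ F.filter (fun x => (QuotientGroup.mk x : G ⧸ V) = c), ‖pf V T f x‖ ^ 2 :=
    (Finset.sum_fiberwise_of_maps_to (fun x hx => Finset.mem_image_of_mem _ hx) _).symm
  rw [h1]
  have h2 : ∀ c ∈ F.image (fun x => (QuotientGroup.mk x : G ⧸ V)),
      ∑ x ∈ F.filter (fun x => (QuotientGroup.mk x : G ⧸ V) = c), ‖pf V T f x‖ ^ 2 ≤
        ‖T‖ ^ 2 * ‖res (fib V c) f‖ ^ 2 := by
    intro c _
    have h3 : ∑ x ∈ F.filter (fun x => (QuotientGroup.mk x : G ⧸ V) = c), ‖pf V T f x‖ ^ 2 =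
        ∑ x ∈ F.filter (fun x => (QuotientGroup.mk x : G ⧸ V) = c),
          ‖T (res (fib V c) f) x‖ ^ 2 := by
      refine Finset.sum_congr rfl fun x hx => ?_
      unfold pf
      rw [(Finset.mem_filter.1 hx).2]
    rw [h3]
    refine (sum_sq_le _ _).trans ?_
    rw [← mul_pow]
    exact pow_le_pow_left₀ (norm_nonneg _) (T.le_opNorm _) 2
  refine (Finset.sum_le_sum h2).trans ?_
  rw [← Finset.mul_sum, mul_pow]
  exact mul_le_mul_of_nonneg_left
    (sum_le_hasSum _ (fun _ _ => by positivity) (hasSum_fib V f)) (by positivity)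

theorem pf_mem (V : Subgroup G) (T : ell2 G →L[ℂ] ell2 G) (f : ell2 G) :
    Summable fun x => ‖pf V T f x‖ ^ 2 :=
  summable_of_sum_le (fun _ => by positivity) (bound V T f)

/-- The pinching as a map. -/
def pin0 (V : Subgroup G) (T : ell2 G →L[ℂ] ell2 G) (f : ell2 G) : ell2 G :=
  ⟨pf V T f, mem_of (pf_mem V T f)⟩

theorem pin0_apply (V : Subgroup G) (T : ell2 G →L[ℂ] ell2 G) (f : ell2 G) (x : G) :
    pin0 V T f x = T (res (fib V (QuotientGroup.mk x)) f) x := rfl

theorem pin0_norm (V : Subgroup G) (T : ell2 G →L[ℂ] ell2 G) (f : ell2 G) :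
    ‖pin0 V T f‖ ≤ ‖T‖ * ‖f‖ := by
  have h1 : ‖pin0 V T f‖ ^ 2 ≤ (‖T‖ * ‖f‖) ^ 2 := by
    rw [nsq]
    exact (pf_mem V T f).tsum_le_of_sum_le (bound V T f)
  exact (sq_le_sq₀ (norm_nonneg _) (by positivity)).1 h1

/-- The pinching as a linear map. -/
def pin1 (V : Subgroup G) (T : ell2 G →L[ℂ] ell2 G) : ell2 G →ₗ[ℂ] ell2 G where
  toFun := pin0 V T
  map_add' f g := by
    ext x
    rw [lp.coeFn_add, Pi.add_apply, pin0_apply, pin0_apply, pin0_apply, res_add, map_add,
      lp.coeFn_add, Pi.add_apply]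
  map_smul' c f := by
    ext x
    rw [RingHom.id_apply, lp.coeFn_smul, Pi.smul_apply, pin0_apply, pin0_apply, res_smul,
      map_smul, lp.coeFn_smul, Pi.smul_apply]

/-- The pinching. -/
def pinL (V : Subgroup G) (T : ell2 G →L[ℂ] ell2 G) : ell2 G →L[ℂ] ell2 G :=
  (pin1 V T).mkContinuous ‖T‖ (pin0_norm V T)

theorem pinL_apply (V : Subgroup G) (T : ell2 G →L[ℂ] ell2 G) (f : ell2 G) (x : G) :
    pinL V T f x = T (res (fib V (QuotientGroup.mk x)) f) x := rfl

theorem left_res (V : Subgroup G) (g x : G) (f : ell2 G) :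
    leftReg G g (res (fib V (QuotientGroup.mk (g⁻¹ * x))) f) =
      res (fib V (QuotientGroup.mk x)) (leftReg G g f) := by
  ext y
  rw [leftReg_apply]
  have h1 : g⁻¹ * y ∈ fib V (QuotientGroup.mk (g⁻¹ * x)) ↔ y ∈ fib V (QuotientGroup.mk x) := by
    rw [mem_fib, mem_fib, QuotientGroup.eq, QuotientGroup.eq]
    have h2 : (g⁻¹ * y)⁻¹ * (g⁻¹ * x) = y⁻¹ * x := by group
    rw [h2]
  by_cases h : y ∈ fib V (QuotientGroup.mk x)
  · rw [res_mem h, res_mem (h1.2 h), leftReg_apply]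
  · rw [res_notMem h, res_notMem (fun h2 => h (h1.1 h2))]

theorem res_fib_eq {V : Subgroup G} {c d : G ⧸ V} (h : c ≠ d) (f : ell2 G) :
    res (fib V c) (res (fib V d) f) = 0 := by
  ext y
  rw [lp.coeFn_zero, Pi.zero_apply]
  by_cases h1 : y ∈ fib V c
  · rw [res_mem h1, res_notMem]
    intro h2
    rw [mem_fib] at h1 h2
    exact h (h1.symm.trans h2)
  · rw [res_notMem h1]

theorem pin_res (V : Subgroup G) (T : ell2 G →L[ℂ] ell2 G) (c : G ⧸ V) (f : ell2 G) :
    pinL V T (res (fib V c) f) = res (fib V c) (T (res (fib V c) f)) := by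
  ext x
  rw [pinL_apply]
  by_cases h : (QuotientGroup.mk x : G ⧸ V) = c
  · rw [res_mem (A := fib V c) (s := x) h, h, res_res]
  · rw [res_notMem (A := fib V c) (s := x) h, res_fib_eq h, map_zero, lp.coeFn_zero,
      Pi.zero_apply]

theorem pin_comm (V : Subgroup G) (T : ell2 G →L[ℂ] ell2 G) (c : G ⧸ V) (f : ell2 G) :
    pinL V T (res (fib V c) f) = res (fib V c) (pinL V T f) := by
  rw [pin_res]
  ext x
  by_cases h : (QuotientGroup.mk x : G ⧸ V) = c
  · rw [res_mem (A := fib V c) (s := x) h, res_mem (A := fib V c) (s := x) h, pinL_apply, h]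
  · rw [res_notMem (A := fib V c) (s := x) h, res_notMem (A := fib V c) (s := x) h]

theorem fib_one (V : Subgroup G) : fib V (QuotientGroup.mk (1 : G)) = (V : Set G) := by
  ext x
  rw [mem_fib, QuotientGroup.eq, mul_one, inv_mem_iff]
  rfl

end XPin

open XPin in
/-- [PIN]. -/
theorem pin : PinStmt := by
  intro G _ V T hT
  refine ⟨pinL V T, ?_, ?_, pin_comm V T, ?_, ?_⟩
  · exact LinearMap.mkContinuous_norm_le _ (norm_nonneg _) _
  · intro g
    ext f x
    change leftReg G g (pinL V T f) x = pinL V T (leftReg G g f) x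
    rw [leftReg_apply, pinL_apply, pinL_apply, ← left_res]
    have h1 : T (leftReg G g (res (fib V (QuotientGroup.mk (g⁻¹ * x))) f)) =
        leftReg G g (T (res (fib V (QuotientGroup.mk (g⁻¹ * x))) f)) :=
      (congrArg (fun A : ell2 G →L[ℂ] ell2 G =>
        A (res (fib V (QuotientGroup.mk (g⁻¹ * x))) f)) (hT g)).symm
    rw [h1, leftReg_apply]
  · intro f
    rw [← fib_one]
    exact pin_res V T _ f
  · intro f
    rw [← fib_one]
    refine ext_inner_right ℂ fun f' => ?_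
    rw [ContinuousLinearMap.star_eq_adjoint, ContinuousLinearMap.star_eq_adjoint,
      ContinuousLinearMap.adjoint_inner_left, inner_res, inner_res,
      ContinuousLinearMap.adjoint_inner_left, ← pin_comm, pin_res, ← inner_res]

end

end MP8a6869.CC
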