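import Pool.Agent.Work.MP_8a6869_an.CC.Co

/-!
# MP_8a6869_an, commuting copies: extensions of amenable groups
-/

namespace MP8a6869.CC

open MP8a6869 MP8a6869.WR MP8a6869.WR.Contra

noncomputable section

/-- [EXT] EASY-MEDIUM. An extension of an amenable group by an amenable group is amenable (`IsAmen`: left
invariant finitely additive probability measure `m` on all subsets). Proof. (1) The integral: for a finitely
additive probability measure `m` on a set `X` there is `I : (X → ℝ) → ℝ`, defined for the functions with
values in `[0, 1]`, with `I (indicator A) = m A` (only needed: `I 1 = 1`), `0 ≤ I f`,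
`I (f + g) = I f + I g` if `f`, `g`, `f + g` have values in `[0, 1]`, and `I (f ∘ σ) = I f` if the bijection
`σ` preserves `m`. For instance `I f = lim_k (1/k) ∑_(j=1)^k m {f ≥ j/k}` (`k = 2 ^ i`: decreasing in `i`), or the
supremum of the `∑ c_j m (A_j)` over the simple functions `≤ f`, equal up to `1/k` to the same sum for
`⌊k f⌋ / k`. (2) Let `N = f.ker`, `s : B → A` with `f (s b) = b` for `b` in the range (first replace `B` by
`f.range`, a subgroup of `B`, amenable by `SubStmt`, so that `f` is surjective). For `S ⊆ A` put
`φ_S (b) = m_N {n : s b * n ∈ S}`; it does not depend on the choice of `s b` in `f⁻¹(b)` (left invariance of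
`m_N`), so `φ_(aS) (b) = φ_S (f a⁻¹ b)`, and it is additive in `S`. `m_A (S) = I φ_S` for `m = m_B`. -/
def ExtStmt : Prop :=
  SubStmt → ∀ (A B : Type) [Group A] [Group B] (f : A →* B), IsAmen f.ker → IsAmen B → IsAmen A

end

end MP8a6869.CC
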