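import Pool.Agent.Work.MP_8a6869_an.CC.Quo
import Pool.Agent.Work.MP_8a6869_an.CC.StmtsE

/-!
# MP_8a6869_an, commuting copies: passing to a quotient
-/

namespace MP8a6869.CC

open MP8a6869 MP8a6869.WR MP8a6869.WR.Contra
open scoped InnerProductSpace ComplexOrder ENNReal
open Filter Topology

noncomputable section

/-- If the preimage of `W` under a surjective homomorphism is co-amenable, then so is `W`. -/
theorem coAmen_of_comap (G Q : Type) [Group G] [Group Q] (π : G →* Q)
    (hπ : Function.Surjective π) (W : Subgroup Q) (h : CoAmen G (W.comap π)) : CoAmen Q W := by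
  obtain ⟨m, h0, h1, h2, h3⟩ := h
  obtain ⟨p, hp⟩ : ∃ p : G ⧸ W.comap π → Q ⧸ W,
      ∀ g : G, p (QuotientGroup.mk g) = QuotientGroup.mk (π g) := by
    refine ⟨fun c => Quotient.liftOn' c (fun g => (QuotientGroup.mk (π g) : Q ⧸ W)) ?_,
      fun g => rfl⟩
    intro a b hab
    rw [QuotientGroup.leftRel_apply] at hab
    rw [QuotientGroup.eq, ← map_inv, ← map_mul]
    exact hab
  have hpm : ∀ (g : G) (c : G ⧸ W.comap π), p (g • c) = π g • p c := by
    intro g c
    obtain ⟨x, rfl⟩ := QuotientGroup.mk_surjective c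
    have e1 : g • (QuotientGroup.mk x : G ⧸ W.comap π) = QuotientGroup.mk (g * x) := rfl
    have e2 : π g • (QuotientGroup.mk (π x) : Q ⧸ W) = QuotientGroup.mk (π g * π x) := rfl
    rw [e1, hp, hp, e2, map_mul]
  refine ⟨fun A => m (p ⁻¹' A), fun A => h0 _, ?_, fun A B hAB => ?_, fun q A => ?_⟩
  · show m (p ⁻¹' Set.univ) = 1
    rw [Set.preimage_univ, h1]
  · show m (p ⁻¹' (A ∪ B)) = m (p ⁻¹' A) + m (p ⁻¹' B)
    rw [Set.preimage_union, h2 _ _ (hAB.preimage p)]
  · show m (p ⁻¹' ((fun x => q • x) '' A)) = m (p ⁻¹' A)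
    obtain ⟨g, rfl⟩ := hπ q
    rw [← h3 g (p ⁻¹' A)]
    congr 1
    ext c
    constructor
    · rintro ⟨a, ha, hac⟩
      refine ⟨g⁻¹ • c, ?_, smul_inv_smul g c⟩
      show p (g⁻¹ • c) ∈ A
      have h5 : p (g⁻¹ • c) = a := by
        rw [hpm, map_inv, ← hac, inv_smul_smul]
      rw [h5]
      exact ha
    · rintro ⟨d, hd, rfl⟩
      exact ⟨p d, hd, (hpm g d).symm⟩

/-- The centraliser of `z` in `Γ` is amenable if the kernel of `π` on `Γ` is amenable and the
centraliser of `π z` in `π Γ` is amenable. -/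
theorem cent_of_quo (hsub : SubStmt) (hext : ExtStmt) (G Q : Type) [Group G] [Group Q]
    (π : G →* Q) (Γ : Subgroup G) (hker : IsAmen (π.ker.subgroupOf Γ)) (z : G)
    (hcent : IsAmen ((Subgroup.centralizer {π z}).subgroupOf (Γ.map π))) :
    IsAmen ((Subgroup.centralizer {z}).subgroupOf Γ) := by
  obtain ⟨f, hf⟩ : ∃ f : (Subgroup.centralizer {z}).subgroupOf Γ →*
      (Subgroup.centralizer {π z}).subgroupOf (Γ.map π),
      ∀ y, (((f y : Γ.map π) : Q)) = π ((y : Γ) : G) := by
    refine ⟨{ toFun := fun y => ⟨⟨π ((y : Γ) : G), ⟨_, (y : Γ).2, rfl⟩⟩, ?_⟩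
              map_one' := ?_
              map_mul' := ?_ }, fun y => rfl⟩
    · rw [Subgroup.mem_subgroupOf, Subgroup.mem_centralizer_singleton_iff]
      have h1 := y.2
      rw [Subgroup.mem_subgroupOf, Subgroup.mem_centralizer_singleton_iff] at h1
      show π ((y : Γ) : G) * π z = π z * π ((y : Γ) : G)
      rw [← map_mul, ← map_mul, h1]
    · apply Subtype.ext
      apply Subtype.ext
      exact map_one π
    · intro a b
      apply Subtype.ext
      apply Subtype.ext
      exact map_mul π _ _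
  refine hext hsub _ _ f (hsub _ (π.ker.subgroupOf Γ)
    { toFun := fun y => ⟨((y : (Subgroup.centralizer {z}).subgroupOf Γ) : Γ), ?_⟩
      map_one' := rfl
      map_mul' := fun _ _ => rfl } ?_ hker) hcent
  · rw [Subgroup.mem_subgroupOf, MonoidHom.mem_ker, ← hf]
    have h2 : f (y : (Subgroup.centralizer {z}).subgroupOf Γ) = 1 := y.2
    rw [h2]
    rfl
  · intro a b hab
    apply Subtype.ext
    apply Subtype.ext
    exact congrArg (fun y : π.ker.subgroupOf Γ => (y : Γ)) hab

end

end MP8a6869.CC
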