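import Pool.Agent.Work.MP_8a6869_an.CC.Stmts

/-!
# MP_8a6869_an, commuting copies: right multiplication
-/

namespace MP8a6869.CC

open MP8a6869 MP8a6869.WR MP8a6869.WR.Contra
open scoped InnerProductSpace ComplexOrder ENNReal
open Filter Topology

noncomputable section

namespace XRmu

variable {G : Type} [Group G]

/-- The involution `J f (s) = conj (f (s⁻¹))`. -/
def J (f : ell2 G) : ell2 G :=
  ⟨fun s => (starRingEnd ℂ) (f s⁻¹), mem_of (by
    have h := ((Equiv.inv G).summable_iff (f := fun s : G => ‖f s‖ ^ 2)).2 (summ f)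
    refine h.congr fun s => ?_
    simp)⟩

theorem J_apply (f : ell2 G) (s : G) : J f s = (starRingEnd ℂ) (f s⁻¹) := rfl

theorem J_J (f : ell2 G) : J (J f) = f := by
  ext s
  rw [J_apply, J_apply]
  simp

theorem J_add (f g : ell2 G) : J (f + g) = J f + J g := by
  ext s
  rw [lp.coeFn_add, Pi.add_apply, J_apply, J_apply, J_apply, lp.coeFn_add, Pi.add_apply, map_add]

theorem J_smul (c : ℂ) (f : ell2 G) : J (c • f) = (starRingEnd ℂ) c • J f := by
  ext s
  rw [lp.coeFn_smul, Pi.smul_apply, J_apply, J_apply, lp.coeFn_smul, Pi.smul_apply, smul_eq_mul,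
    smul_eq_mul, map_mul]

theorem norm_J (f : ell2 G) : ‖J f‖ = ‖f‖ := by
  refine (sq_eq_sq₀ (norm_nonneg _) (norm_nonneg _)).1 ?_
  rw [nsq, nsq, ← (Equiv.inv G).tsum_eq (fun s : G => ‖f s‖ ^ 2)]
  refine tsum_congr fun s => ?_
  rw [J_apply]
  simp

theorem inner_J (f g : ell2 G) : ⟪J f, J g⟫_ℂ = ⟪g, f⟫_ℂ := by
  rw [lp.inner_eq_tsum, lp.inner_eq_tsum,
    ← (Equiv.inv G).tsum_eq (fun s : G => ⟪(g s : ℂ), (f s : ℂ)⟫_ℂ)]
  refine tsum_congr fun s => ?_
  rw [J_apply, J_apply]
  simp [mul_comm]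

theorem J_delta : J (delta (1 : G)) = delta 1 := by
  classical
  ext s
  rw [J_apply, delta, lp.single_apply, lp.single_apply, Pi.single_apply, Pi.single_apply]
  by_cases h : s = 1
  · rw [if_pos h, if_pos (by rw [h, inv_one])]
    simp
  · rw [if_neg h, if_neg (by simpa using h)]
    simp

theorem J_left (g : G) (f : ell2 G) : J (leftReg G g f) = rightReg G g (J f) := by
  ext s
  rw [J_apply, rightReg_apply, leftReg_apply, J_apply, mul_inv_rev]

theorem J_right (g : G) (f : ell2 G) : J (rightReg G g f) = leftReg G g (J f) := by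
  ext s
  rw [J_apply, rightReg_apply, leftReg_apply, J_apply, mul_inv_rev, inv_inv]

/-- The operator `J y J`. -/
def RR (y : ell2 G →L[ℂ] ell2 G) : ell2 G →L[ℂ] ell2 G :=
  LinearMap.mkContinuous
    { toFun := fun f => J (y (J f))
      map_add' := fun f g => by rw [J_add, map_add, J_add]
      map_smul' := fun c f => by
        rw [J_smul, map_smul, J_smul, RingHom.id_apply, starRingEnd_self_apply] } ‖y‖
    (fun f => by
      change ‖J (y (J f))‖ ≤ ‖y‖ * ‖f‖
      rw [norm_J]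
      exact (y.le_opNorm (J f)).trans (by rw [norm_J]))

theorem RR_apply (y : ell2 G →L[ℂ] ell2 G) (f : ell2 G) : RR y f = J (y (J f)) := rfl

theorem norm_RR (y : ell2 G →L[ℂ] ell2 G) : ‖RR y‖ ≤ ‖y‖ :=
  LinearMap.mkContinuous_norm_le _ (norm_nonneg _) _

theorem star_RR (y : ell2 G →L[ℂ] ell2 G) : star (RR y) = RR (star y) := by
  rw [ContinuousLinearMap.star_eq_adjoint]
  symm
  rw [ContinuousLinearMap.eq_adjoint_iff]
  intro f g
  rw [RR_apply, RR_apply]
  calc ⟪J ((star y) (J f)), g⟫_ℂ = ⟪J ((star y) (J f)), J (J g)⟫_ℂ := by rw [J_J]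
    _ = ⟪J g, (star y) (J f)⟫_ℂ := inner_J _ _
    _ = ⟪y (J g), J f⟫_ℂ := by
        rw [ContinuousLinearMap.star_eq_adjoint, ContinuousLinearMap.adjoint_inner_right]
    _ = ⟪J (J f), J (y (J g))⟫_ℂ := (inner_J _ _).symm
    _ = ⟪f, J (y (J g))⟫_ℂ := by rw [J_J]

theorem aux (y : ell2 G →L[ℂ] ell2 G) (hy : y ∈ LGalg G) : ‖RR (star y)‖ ≤ ‖y‖ ∧
    (∀ g, leftReg G g * RR (star y) = RR (star y) * leftReg G g) ∧
    RR (star y) (delta 1) = y (delta 1) ∧
    (star (RR (star y))) (delta 1) = (star y) (delta 1) := by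
  have hy' : star y ∈ LGalg G := star_mem hy
  refine ⟨?_, ?_, ?_, ?_⟩
  · refine (norm_RR _).trans ?_
    rw [ContinuousLinearMap.star_eq_adjoint]
    exact (LinearIsometryEquiv.norm_map ContinuousLinearMap.adjoint y).le
  · intro g
    apply ContinuousLinearMap.ext
    intro f
    change leftReg G g (J ((star y) (J f))) = J ((star y) (J (leftReg G g f)))
    rw [J_left, ← J_right]
    congr 1
    have h := comm_rightReg G hy' g
    exact congrArg (fun T : ell2 G →L[ℂ] ell2 G => T (J f)) h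
  · rw [RR_apply, J_delta]
    ext s
    rw [J_apply, star_apply_delta G hy s⁻¹, inv_inv, starRingEnd_self_apply]
  · rw [star_RR, star_star, RR_apply, J_delta]
    ext s
    rw [J_apply, star_apply_delta G hy s]

end XRmu

open XRmu in
theorem rmu : RmuStmt := by
  intro G _ x
  obtain ⟨h1, h2, h3, h4⟩ := aux (op x) x.2
  exact ⟨RR (star (op x)), h1, h2, h3, h4⟩

end

end MP8a6869.CC
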