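import Pool.Agent.Work.MP_8a6869_an.CC.Stmts
import Pool.Agent.Work.MP_8a6869_an.Bd.B02

/-!
# MP_8a6869_an, commuting copies: item SQ2 (helper15)

From an existential embedding to the sequence `u`.
-/

namespace MP8a6869.CC

open MP8a6869 MP8a6869.WR MP8a6869.WR.Contra
open scoped InnerProductSpace ComplexOrder ENNReal
open Filter Topology

noncomputable section

namespace XSq2

variable {G : Type} [Group G]

theorem same_symm (U : Ultrafilter ℕ) {a b : ℕ → (LG G).Elt} (h : USame U (LG G) a b) :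
    USame U (LG G) b a := by
  rw [N3.same_iff] at *
  refine h.congr fun n => ?_
  have e : a n - b n = -(b n - a n) := by abel
  rw [e]
  exact norm_neg (((b n - a n).1 : ell2 G →L[ℂ] ell2 G) (delta 1))

theorem lg_mul (g h : G) : lg G g * lg G h = lg G (g * h) :=
  Subtype.ext (leftReg_mul G g h).symm

theorem star_lg (g : G) : star (lg G g) = lg G g⁻¹ := Subtype.ext (star_leftReg G g)

theorem lg_one : lg G (1 : G) = 1 := Subtype.ext (leftReg_one G)

end XSq2

open XSq2 in
/-- [SQ2] -/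
theorem sq2 : Sq2Stmt := by
  intro U G G' _ _ ι j t hj hcomm ⟨θ, hbd, hone, _, _, hmul, hstar, _, hι⟩
  obtain ⟨C, hC⟩ := hbd (lg G' t)
  obtain ⟨Cs, hCs⟩ := hbd (star (lg G' t))
  have hmulB : ∀ a b c : ℝ, ∀ x y : (LG G).Elt, ‖x‖ ≤ a → ‖y‖ ≤ b → 0 ≤ a → a * b ≤ c →
      ‖x * y‖ ≤ c := by
    intro a b c x y hx hy ha hc
    exact ((norm_mul_le _ _).trans (mul_le_mul hx hy (norm_nonneg _) ha)).trans hc
  have hC0 : 0 ≤ C := (norm_nonneg _).trans (hC 0)
  have hCs0 : 0 ≤ Cs := (norm_nonneg _).trans (hCs 0)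
  have hstar' : USame U (LG G) (fun n => star (θ (lg G' t) n)) (θ (star (lg G' t))) :=
    same_symm U (hstar _)
  have hcon : ∀ g : G, USame U (LG G) (fun _ => lg G g) (θ (lg G' (j g))) := by
    intro g
    have h := same_symm U (hι (lg G g))
    rwa [hj g] at h
  -- the conjugates
  have hcj : ∀ h : G, USame U (LG G) (fun n => cj (θ (lg G' t) n) h)
      (θ (lg G' (t⁻¹ * j h * t))) := by
    intro h
    obtain ⟨C1, hC1⟩ := hbd (lg G' (j h))
    obtain ⟨C2, hC2⟩ := hbd (star (lg G' t) * lg G' (j h))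
    have e1 : USame U (LG G) (fun n => star (θ (lg G' t) n) * lg G h)
        (θ (star (lg G' t) * lg G' (j h))) := by
      refine N3.same_trans U ?_ (same_symm U (hmul _ _))
      exact N3.same_mul U C C1 (fun n => by rw [norm_star]; exact hC n) hC1 hstar' (hcon h)
    have e2 : USame U (LG G) (fun n => star (θ (lg G' t) n) * lg G h * θ (lg G' t) n)
        (θ (star (lg G' t) * lg G' (j h) * lg G' t)) := by
      refine N3.same_trans U ?_ (same_symm U (hmul _ _))
      refine N3.same_mul U (C * ‖lg G h‖) C (fun n => ?_) hC e1 (N3.same_refl U _)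
      exact hmulB C ‖lg G h‖ _ _ _ (by rw [norm_star]; exact hC n) le_rfl hC0 le_rfl
    have e3 : star (lg G' t) * lg G' (j h) * lg G' t = lg G' (t⁻¹ * j h * t) := by
      rw [star_lg, lg_mul, lg_mul]
    rw [e3] at e2
    exact e2
  refine ⟨max C 1, θ (lg G' t), le_max_right _ _, fun n => (hC n).trans (le_max_left _ _), ?_, ?_,
    ?_⟩
  · have e1 : USame U (LG G) (fun n => star (θ (lg G' t) n) * θ (lg G' t) n)
        (θ (star (lg G' t) * lg G' t)) := by
      refine N3.same_trans U ?_ (same_symm U (hmul _ _))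
      exact N3.same_mul U C C (fun n => by rw [norm_star]; exact hC n) hC hstar'
        (N3.same_refl U _)
    have e2 : star (lg G' t) * lg G' t = 1 := by
      rw [star_lg, lg_mul, inv_mul_cancel, lg_one]
    rw [e2] at e1
    exact N3.same_trans U e1 hone
  · have e1 : USame U (LG G) (fun n => θ (lg G' t) n * star (θ (lg G' t) n))
        (θ (lg G' t * star (lg G' t))) := by
      refine N3.same_trans U ?_ (same_symm U (hmul _ _))
      exact N3.same_mul U C Cs hC hCs (N3.same_refl U _) hstar'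
    have e2 : lg G' t * star (lg G' t) = 1 := by
      rw [star_lg, lg_mul, mul_inv_cancel, lg_one]
    rw [e2] at e1
    exact N3.same_trans U e1 hone
  · intro g h
    obtain ⟨C1, hC1⟩ := hbd (lg G' (j g))
    obtain ⟨C2, hC2⟩ := hbd (lg G' (t⁻¹ * j h * t))
    have hb : ∀ n, ‖cj (θ (lg G' t) n) h‖ ≤ C * ‖lg G h‖ * C := by
      intro n
      refine hmulB (C * ‖lg G h‖) C _ _ _ ?_ (hC n) (by positivity) le_rfl
      exact hmulB C ‖lg G h‖ _ _ _ (by rw [norm_star]; exact hC n) le_rfl hC0 le_rfl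
    have e1 : USame U (LG G) (fun n => lg G g * cj (θ (lg G' t) n) h)
        (θ (lg G' (j g) * lg G' (t⁻¹ * j h * t))) := by
      refine N3.same_trans U ?_ (same_symm U (hmul _ _))
      exact N3.same_mul U ‖lg G g‖ C2 (fun _ => le_rfl) hC2 (hcon g) (hcj h)
    have e2 : USame U (LG G) (fun n => cj (θ (lg G' t) n) h * lg G g)
        (θ (lg G' (t⁻¹ * j h * t) * lg G' (j g))) := by
      refine N3.same_trans U ?_ (same_symm U (hmul _ _))
      exact N3.same_mul U (C * ‖lg G h‖ * C) C1 hb hC1 (hcj h) (hcon g)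
    have e3 : lg G' (j g) * lg G' (t⁻¹ * j h * t) = lg G' (t⁻¹ * j h * t) * lg G' (j g) := by
      rw [lg_mul, lg_mul, hcomm g h]
    rw [e3] at e1
    exact N3.same_trans U e1 (same_symm U e2)

end

end MP8a6869.CC
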