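import Pool.Agent.Work.MP_8a6869_an.CC.Stmts

/-!
# MP_8a6869_an, commuting copies, item SUB (helper42)

A subgroup of an amenable group is amenable.
-/

namespace MP8a6869.CC

open MP8a6869 MP8a6869.WR MP8a6869.WR.Contra
open scoped InnerProductSpace ComplexOrder ENNReal
open Filter Topology

noncomputable section

namespace XSub

/-- The equivariant map onto a subgroup. -/
theorem exists_part {A B : Type} [Group A] [Group B] (f : A →* B) (hf : Function.Injective f) :
    ∃ p : B → A, ∀ (a : A) (b : B), p (f a * b) = a * p b := by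
  obtain ⟨r, hr⟩ : ∃ r : B → B, ∀ b, r b =
      Quotient.out (Quotient.mk (QuotientGroup.rightRel f.range) b) := ⟨_, fun _ => rfl⟩
  have h1 : ∀ b, b * (r b)⁻¹ ∈ f.range := fun b => by
    have h2 : (QuotientGroup.rightRel f.range) (r b) b := by
      rw [hr]
      exact Quotient.mk_out (s := QuotientGroup.rightRel f.range) b
    exact QuotientGroup.rightRel_apply.1 h2
  have h3 : ∀ b, ∃ a, f a = b * (r b)⁻¹ := fun b => h1 b
  choose p hp using h3
  refine ⟨p, fun a b => hf ?_⟩
  have h4 : r (f a * b) = r b := by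
    rw [hr, hr]
    congr 1
    refine Quotient.sound (s := QuotientGroup.rightRel f.range) ?_
    refine QuotientGroup.rightRel_apply.2 ?_
    rw [mul_inv_rev, mul_inv_cancel_left]
    exact f.range.inv_mem ⟨a, rfl⟩
  rw [map_mul, hp, hp, h4, mul_assoc]

end XSub

theorem sub : SubStmt := by
  intro A B _ _ f hf h
  obtain ⟨m, h0, h1, h2, h3⟩ := h
  obtain ⟨p, hp⟩ := XSub.exists_part f hf
  refine ⟨fun S => m (p ⁻¹' S), fun S => h0 _, ?_, ?_, ?_⟩
  · change m (p ⁻¹' Set.univ) = 1
    rw [Set.preimage_univ, h1]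
  · intro S T hST
    change m (p ⁻¹' (S ∪ T)) = m (p ⁻¹' S) + m (p ⁻¹' T)
    rw [Set.preimage_union, h2 _ _ (hST.preimage p)]
  · intro g S
    change m (p ⁻¹' ((fun x => g * x) '' S)) = m (p ⁻¹' S)
    rw [← h3 (f g) (p ⁻¹' S)]
    congr 1
    ext x
    simp only [Set.mem_preimage, Set.mem_image]
    constructor
    · rintro ⟨y, hy, hyx⟩
      refine ⟨f g⁻¹ * x, ?_, ?_⟩
      · rw [hp, ← hyx, inv_mul_cancel_left]
        exact hy
      · rw [map_inv, mul_inv_cancel_left]
    · rintro ⟨y, hy, rfl⟩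
      exact ⟨p y, hy, (hp g y).symm⟩

end

end MP8a6869.CC
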