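import Pool.Agent.Work.MP_8a6869_an.CC.Stmts
import Pool.Agent.Work.MP_8a6869_an.Bd.B02

/-!
# MP_8a6869_an, commuting copies, item VCS: from elements to vectors
-/

namespace MP8a6869.CC

open MP8a6869 MP8a6869.WR MP8a6869.WR.Contra
open scoped InnerProductSpace ComplexOrder ENNReal
open Filter Topology

noncomputable section

namespace XVcs

variable {G : Type} [Group G] (U : Ultrafilter ℕ)

theorem n2_neg (x : (LG G).Elt) : N3.n2 G (-x) = N3.n2 G x := by
  change ‖((-x.1 : ell2 G →L[ℂ] ell2 G)) (delta 1)‖ = ‖(x.1 : ell2 G →L[ℂ] ell2 G) (delta 1)‖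
  rw [neg_apply, norm_neg]

theorem same_symm {a b : ℕ → (LG G).Elt} (h : USame U (LG G) a b) : USame U (LG G) b a := by
  rw [N3.same_iff] at *
  refine h.congr fun n => ?_
  rw [← neg_sub, n2_neg]

theorem norm_lg (g : G) : ‖lg G g‖ ≤ 1 := by
  change ‖leftReg G g‖ ≤ 1
  exact LinearIsometry.norm_toContinuousLinearMap_le _

theorem star_lg (g : G) : star (lg G g) = lg G g⁻¹ := Subtype.ext (star_leftReg G g)

theorem lg_mul_inv (g : G) : lg G g * lg G g⁻¹ = 1 := by
  refine Subtype.ext ?_
  change leftReg G g * leftReg G g⁻¹ = 1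
  rw [← leftReg_mul, mul_inv_cancel, leftReg_one]

theorem lg_inv_mul (g : G) : lg G g⁻¹ * lg G g = 1 := by
  refine Subtype.ext ?_
  change leftReg G g⁻¹ * leftReg G g = 1
  rw [← leftReg_mul, inv_mul_cancel, leftReg_one]

/-- the norms of an asymptotic isometry -/
theorem norm_vec {x : ℕ → (LG G).Elt}
    (h : USame U (LG G) (fun n => star (x n) * x n) (fun _ => 1)) :
    Tendsto (fun n => ‖vec (x n)‖) U (𝓝 1) := by
  have h1 : Tendsto (fun n => (LG G).tr (star (x n) * x n)) U (𝓝 1) := by
    refine N3.same_tr U (same_symm U h) ?_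
    rw [(LG G).tr_one]
    exact tendsto_const_nhds
  have h2 : Tendsto (fun n => ‖(LG G).tr (star (x n) * x n)‖) U (𝓝 1) := by
    simpa using h1.norm
  have h3 : Tendsto (fun n => √‖(LG G).tr (star (x n) * x n)‖) U (𝓝 1) := by
    simpa [Function.comp_def] using (Real.continuous_sqrt.tendsto 1).comp h2
  refine h3.congr fun n => ?_
  rw [N3.tr_n2, norm_pow, Real.sqrt_sq (norm_nonneg _), Complex.norm_real,
    Real.norm_of_nonneg (N3.n2_nonneg G _)]
  rfl

theorem norm_rightReg (g : G) (v : ell2 G) : ‖rightReg G g v‖ = ‖v‖ :=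
  (permL (Equiv.mulRight g)).norm_map v

theorem op_delta (x : (LG G).Elt) (g : G) :
    op x (leftReg G g (delta 1)) = rightReg G g⁻¹ (vec x) := by
  have h1 : leftReg G g (delta (1 : G)) = rightReg G g⁻¹ (delta (1 : G)) := by
    rw [leftReg_delta, rightReg_delta]
    simp
  rw [h1]
  have h2 := DFunLike.congr_fun (comm_rightReg G x.2 g⁻¹) (delta (1 : G))
  exact h2.symm

theorem cw_norm (x : (LG G).Elt) (g : G) :
    ‖leftReg G g (rightReg G g (vec x)) - vec x‖ = N3.n2 G (lg G g * x - x * lg G g) := by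
  have h1 : N3.n2 G (lg G g * x - x * lg G g) =
      ‖leftReg G g (vec x) - op x (leftReg G g (delta 1))‖ := rfl
  rw [h1, op_delta]
  have h2 : leftReg G g (rightReg G g (vec x)) = rightReg G g (leftReg G g (vec x)) :=
    DFunLike.congr_fun (leftReg_rightReg G g g) (vec x)
  have h3 : vec x = rightReg G g (rightReg G g⁻¹ (vec x)) := by
    have h4 := DFunLike.congr_fun (rightReg_mul G g g⁻¹) (vec x)
    rw [mul_inv_cancel, rightReg_one] at h4
    exact h4
  rw [← norm_rightReg g (leftReg G g (vec x) - rightReg G g⁻¹ (vec x)), map_sub, h2, ← h3]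

end XVcs

open XVcs in
/-- [VCS] From elements to vectors. -/
theorem vcs : VcsStmt := by
  intro U G _ C u hC hF
  have hC0 : 0 ≤ C := by linarith
  have hsu : ∀ n, ‖star (u n)‖ ≤ C := fun n => (norm_star (u n)).le.trans (hF.bd n)
  have hlu : ∀ h n, ‖lg G h * u n‖ ≤ C := fun h n => by
    calc ‖lg G h * u n‖ ≤ ‖lg G h‖ * ‖u n‖ := norm_mul_le _ _
      _ ≤ 1 * C := mul_le_mul (norm_lg h) (hF.bd n) (norm_nonneg _) zero_le_one
      _ = C := one_mul C
  have hsl : ∀ h n, ‖star (u n) * lg G h‖ ≤ C := fun h n => by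
    calc ‖star (u n) * lg G h‖ ≤ ‖star (u n)‖ * ‖lg G h‖ := norm_mul_le _ _
      _ ≤ C * 1 := mul_le_mul (hsu n) (norm_lg h) (norm_nonneg _) hC0
      _ = C := mul_one C
  have hstar : ∀ h n, star (cj (u n) h) = star (u n) * lg G h⁻¹ * u n := fun h n => by
    unfold cj
    rw [star_mul, star_mul, star_star, star_lg, mul_assoc]
  -- the middle of the products
  have hmid : ∀ h : G, USame U (LG G)
      (fun n => (star (u n) * lg G h) * ((u n * star (u n)) * (lg G h⁻¹ * u n)))
      (fun n => star (u n) * u n) := by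
    intro h
    have h1 : USame U (LG G) (fun n => (u n * star (u n)) * (lg G h⁻¹ * u n))
        (fun n => 1 * (lg G h⁻¹ * u n)) := by
      refine N3.same_mul U (C * C) C (fun n => ?_) (fun n => hlu h⁻¹ n) hF.right
        (N3.same_refl U _)
      exact (norm_mul_le _ _).trans (mul_le_mul (hF.bd n) (hsu n) (norm_nonneg _) hC0)
    have h2 := N3.same_mul U C C (a := fun n => star (u n) * lg G h)
      (a' := fun n => star (u n) * lg G h) (b := fun n => (u n * star (u n)) * (lg G h⁻¹ * u n))
      (b' := fun n => 1 * (lg G h⁻¹ * u n)) (fun n => hsl h n)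
      (fun n => by rw [one_mul]; exact hlu h⁻¹ n) (N3.same_refl U _) h1
    have h3 : (fun n => (star (u n) * lg G h) * (1 * (lg G h⁻¹ * u n))) =
        fun n => star (u n) * u n := by
      funext n
      rw [one_mul, mul_assoc, ← mul_assoc (lg G h), lg_mul_inv, one_mul]
    rw [h3] at h2
    exact h2
  have hmid1 : ∀ h : G, USame U (LG G)
      (fun n => (star (u n) * lg G h) * ((u n * star (u n)) * (lg G h⁻¹ * u n)))
      (fun _ => 1) := fun h => N3.same_trans U (hmid h) hF.left
  refine ⟨hF.bd, fun h n => ?_, norm_vec U hF.left, fun h => ?_, fun h => norm_vec U ?_,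
    fun h => ?_, fun g h => ?_⟩
  · unfold cj
    calc ‖star (u n) * lg G h * u n‖ ≤ ‖star (u n) * lg G h‖ * ‖u n‖ := norm_mul_le _ _
      _ ≤ C * C := mul_le_mul (hsl h n) (hF.bd n) (norm_nonneg _) hC0
      _ = C ^ 2 := (pow_two C).symm
  · -- hu
    have h1 : USame U (LG G) (fun n => (u n * star (u n)) * (lg G h * u n))
        (fun n => 1 * (lg G h * u n)) := by
      refine N3.same_mul U (C * C) C (fun n => ?_) (fun n => hlu h n) hF.right
        (N3.same_refl U _)
      exact (norm_mul_le _ _).trans (mul_le_mul (hF.bd n) (hsu n) (norm_nonneg _) hC0)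
    have h2 := (N3.same_iff U _ _).1 (same_symm U h1)
    refine h2.congr fun n => ?_
    have h3 : (1 : (LG G).Elt) * (lg G h * u n) - u n * star (u n) * (lg G h * u n) =
        lg G h * u n - u n * cj (u n) h := by
      unfold cj
      rw [one_mul, mul_assoc (star (u n)), ← mul_assoc (u n)]
    rw [h3]
    rfl
  · -- nw
    have h1 := hmid1 h⁻¹
    rw [inv_inv] at h1
    have h2 : (fun n => star (cj (u n) h) * cj (u n) h) =
        fun n => (star (u n) * lg G h⁻¹) * ((u n * star (u n)) * (lg G h * u n)) := by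
      funext n
      rw [hstar]
      unfold cj
      simp only [mul_assoc]
    rw [h2]
    exact h1
  · -- ww
    have h1 := (N3.same_iff U _ _).1 (hmid1 h)
    refine h1.congr fun n => ?_
    have h2 : (star (u n) * lg G h) * ((u n * star (u n)) * (lg G h⁻¹ * u n)) =
        cj (u n) h * star (cj (u n) h) := by
      rw [hstar]
      unfold cj
      simp only [mul_assoc]
    rw [h2]
    rfl
  · -- cw
    have h1 := (N3.same_iff U _ _).1 (hF.comm g h)
    refine h1.congr fun n => ?_
    rw [cw_norm]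

end

end MP8a6869.CC
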