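import Pool.Agent.Work.MP_8a6869_an.CC.Stmts

/-!
# MP_8a6869_an, commuting copies, item BLK: the block norms
-/

set_option autoImplicit false

namespace MP8a6869.CC

open MP8a6869 MP8a6869.WR MP8a6869.WR.Contra
open scoped InnerProductSpace ComplexOrder ENNReal
open Filter Topology

noncomputable section

namespace XBlk

theorem res_sub {S : Type} (A : Set S) (f g : ell2 S) : res A (f - g) = res A f - res A g := by
  ext s
  rw [lp.coeFn_sub, Pi.sub_apply]
  by_cases h : s ∈ A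
  · rw [res_mem h, res_mem h, res_mem h, lp.coeFn_sub, Pi.sub_apply]
  · rw [res_notMem h, res_notMem h, res_notMem h, sub_zero]

theorem inner_res {S : Type} (A : Set S) (f g : ell2 S) : ⟪res A f, g⟫_ℂ = ⟪f, res A g⟫_ℂ := by
  rw [lp.inner_eq_tsum, lp.inner_eq_tsum]
  refine tsum_congr fun s => ?_
  by_cases h : s ∈ A
  · rw [res_mem h, res_mem h]
  · rw [res_notMem h, res_notMem h, inner_zero_left, inner_zero_right]

theorem res_res {S : Type} (A : Set S) (f : ell2 S) : res A (res A f) = res A f := by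
  ext s
  by_cases h : s ∈ A
  · rw [res_mem h]
  · rw [res_notMem h, res_notMem h]

theorem inner_res' {S : Type} (A : Set S) (f g : ell2 S) :
    ⟪res A f, g⟫_ℂ = ⟪res A f, res A g⟫_ℂ := by
  rw [← inner_res, res_res]

theorem norm_blk {G : Type} [Group G] (V : Subgroup G) (f : ell2 G) : ‖blk V f‖ = ‖f‖ := by
  have h : ‖blk V f‖ ^ 2 = ‖f‖ ^ 2 := by
    rw [nsq, ← (hasSum_fib V f).tsum_eq]
    refine tsum_congr fun c => ?_
    rw [blk_apply, Complex.norm_real, norm_norm]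
  exact (sq_eq_sq₀ (norm_nonneg _) (norm_nonneg _)).1 h

theorem sub_apply_norm {G : Type} [Group G] (V : Subgroup G) (f f' : ell2 G) (c : G ⧸ V) :
    ‖(blk V f - blk V f') c‖ = |‖res (fib V c) f‖ - ‖res (fib V c) f'‖| := by
  rw [lp.coeFn_sub, Pi.sub_apply, blk_apply, blk_apply, ← Complex.ofReal_sub, Complex.norm_real,
    Real.norm_eq_abs]

theorem res_left {G : Type} [Group G] (V : Subgroup G) (h : G) (f : ell2 G) (c : G ⧸ V) :
    res (fib V c) (leftReg G h f) = leftReg G h (res (fib V (h⁻¹ • c)) f) := by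
  ext x
  rw [leftReg_apply]
  have e : h⁻¹ * x ∈ fib V (h⁻¹ • c) ↔ x ∈ fib V c := by
    show ((QuotientGroup.mk (h⁻¹ * x) : G ⧸ V) = h⁻¹ • c) ↔ ((QuotientGroup.mk x : G ⧸ V) = c)
    have e1 : (QuotientGroup.mk (h⁻¹ * x) : G ⧸ V) = h⁻¹ • (QuotientGroup.mk x : G ⧸ V) := rfl
    rw [e1]
    exact (MulAction.injective h⁻¹).eq_iff
  by_cases hx : x ∈ fib V c
  · rw [res_mem hx, res_mem (e.2 hx), leftReg_apply]
  · rw [res_notMem hx, res_notMem (fun h' => hx (e.1 h'))]

theorem norm_leftReg {G : Type} [Group G] (h : G) (f : ell2 G) : ‖leftReg G h f‖ = ‖f‖ :=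
  (permL (Equiv.mulLeft h⁻¹)).norm_map f

theorem cs {G : Type} [Group G] (V : Subgroup G) (f g : ell2 G) :
    (Summable fun c : G ⧸ V => ‖res (fib V c) f‖ * ‖res (fib V c) g‖) ∧
    ∑' c : G ⧸ V, ‖res (fib V c) f‖ * ‖res (fib V c) g‖ ≤ ‖f‖ * ‖g‖ := by
  have hs : Summable fun c : G ⧸ V => ‖res (fib V c) f‖ * ‖res (fib V c) g‖ := by
    refine ((hasSum_fib V f).summable.add (hasSum_fib V g).summable).of_nonneg_of_le
      (fun c => by positivity) fun c => ?_
    nlinarith [sq_nonneg (‖res (fib V c) f‖ - ‖res (fib V c) g‖), sq_nonneg (‖res (fib V c) f‖),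
      sq_nonneg (‖res (fib V c) g‖)]
  refine ⟨hs, ?_⟩
  have h1 : ⟪blk V f, blk V g⟫_ℂ =
      ((∑' c : G ⧸ V, ‖res (fib V c) f‖ * ‖res (fib V c) g‖ : ℝ) : ℂ) := by
    rw [lp.inner_eq_tsum, Complex.ofReal_tsum]
    refine tsum_congr fun c => ?_
    rw [blk_apply, blk_apply]
    simp [mul_comm]
  have h2 := norm_inner_le_norm (𝕜 := ℂ) (blk V f) (blk V g)
  rw [h1, Complex.norm_real, norm_blk, norm_blk] at h2
  exact (le_abs_self _).trans h2

theorem sq_sub_le {a b : ℝ} (ha : 0 ≤ a) (hb : 0 ≤ b) : (a - b) ^ 2 ≤ |a ^ 2 - b ^ 2| := by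
  have h1 : a ^ 2 - b ^ 2 = (a - b) * (a + b) := by ring
  rw [h1, abs_mul, ← sq_abs (a - b), sq]
  refine mul_le_mul_of_nonneg_left ?_ (abs_nonneg _)
  rw [abs_of_nonneg (add_nonneg ha hb)]
  exact abs_sub_le_iff.2 ⟨by linarith, by linarith⟩

end XBlk

open XBlk

theorem blkf : BlkStmt := by
  intro G _ V
  refine ⟨norm_blk V, fun f f' => ?_, fun h f c => ?_, fun D hD f => ?_⟩
  · refine (sq_le_sq₀ (norm_nonneg _) (norm_nonneg _)).1 ?_
    rw [nsq, ← (hasSum_fib V (f - f')).tsum_eq]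
    refine Summable.tsum_le_tsum (fun c => ?_) (summ _) (hasSum_fib V (f - f')).summable
    rw [sub_apply_norm, res_sub]
    exact pow_le_pow_left₀ (abs_nonneg _) (abs_norm_sub_norm_le _ _) 2
  · rw [blk_apply, blk_apply, res_left, norm_leftReg]
  · set g : ell2 G := (star D) (D f) - f with hg
    have key : ∀ c : G ⧸ V, ‖(blk V (D f) - blk V f) c‖ ^ 2 ≤
        ‖res (fib V c) f‖ * ‖res (fib V c) g‖ := by
      intro c
      rw [sub_apply_norm, sq_abs]
      refine (sq_sub_le (norm_nonneg _) (norm_nonneg _)).trans ?_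
      have h1 : ((‖res (fib V c) (D f)‖ ^ 2 : ℝ) : ℂ) = ⟪res (fib V c) f, (star D) (D f)⟫_ℂ := by
        rw [ContinuousLinearMap.star_eq_adjoint, ContinuousLinearMap.adjoint_inner_right, hD,
          inner_res', inner_self_eq_norm_sq_to_K]
        push_cast
        rfl
      have h2 : ((‖res (fib V c) f‖ ^ 2 : ℝ) : ℂ) = ⟪res (fib V c) f, f⟫_ℂ := by
        rw [inner_res', inner_self_eq_norm_sq_to_K]
        push_cast
        rfl
      have h3 : ((‖res (fib V c) (D f)‖ ^ 2 - ‖res (fib V c) f‖ ^ 2 : ℝ) : ℂ) =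
          ⟪res (fib V c) f, res (fib V c) g⟫_ℂ := by
        rw [Complex.ofReal_sub, h1, h2, ← inner_sub_right, ← hg, inner_res']
      have h4 := norm_inner_le_norm (𝕜 := ℂ) (res (fib V c) f) (res (fib V c) g)
      rw [← h3, Complex.norm_real, Real.norm_eq_abs] at h4
      exact h4
    obtain ⟨h5, h6⟩ := cs V f g
    rw [nsq]
    exact (Summable.tsum_le_tsum key (summ _) h5).trans h6

end

end MP8a6869.CC
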