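import Pool.Agent.Work.MP_8a6869_an.CC.Stmts

/-!
# MP_8a6869_an, commuting copies: co-amenability of `V`
-/

namespace MP8a6869.CC

open MP8a6869 MP8a6869.WR MP8a6869.WR.Contra
open scoped InnerProductSpace ComplexOrder ENNReal
open Filter Topology

noncomputable section

/-- `V` is co-amenable in `G`: there is a `G`-invariant finitely additive probability measure on
all subsets of `G / V`. -/
def CoAmen (G : Type) [Group G] (V : Subgroup G) : Prop :=
  ∃ m : Set (G ⧸ V) → ℝ, (∀ A, 0 ≤ m A) ∧ m Set.univ = 1 ∧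
    (∀ A B, Disjoint A B → m (A ∪ B) = m A + m B) ∧
    ∀ (g : G) (A : Set (G ⧸ V)), m ((fun c => g • c) '' A) = m A

namespace XCo

variable {S : Type}

theorem res_sub (A : Set S) (f g : ell2 S) : res A (f - g) = res A f - res A g := by
  ext s
  rw [lp.coeFn_sub, Pi.sub_apply]
  by_cases h : s ∈ A
  · rw [res_mem h, res_mem h, res_mem h, lp.coeFn_sub, Pi.sub_apply]
  · rw [res_notMem h, res_notMem h, res_notMem h, sub_zero]

theorem res_union {A B : Set S} (h : Disjoint A B) (f : ell2 S) :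
    ‖res (A ∪ B) f‖ ^ 2 = ‖res A f‖ ^ 2 + ‖res B f‖ ^ 2 := by
  rw [nsq, nsq, nsq, ← (summ (res A f)).tsum_add (summ (res B f))]
  refine tsum_congr fun s => ?_
  by_cases hA : s ∈ A
  · have hB : s ∉ B := fun hB => Set.disjoint_left.1 h hA hB
    rw [res_mem (Set.mem_union_left B hA), res_mem hA, res_notMem hB]
    simp
  · by_cases hB : s ∈ B
    · rw [res_mem (Set.mem_union_right A hB), res_notMem hA, res_mem hB]
      simp
    · rw [res_notMem (by simp [hA, hB]), res_notMem hA, res_notMem hB]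
      simp

theorem res_univ (f : ell2 S) : res Set.univ f = f := by
  ext s
  rw [res_mem (Set.mem_univ s)]

theorem norm_res_image (σ : S ≃ S) (A : Set S) (f : ell2 S) :
    ‖res (σ '' A) f‖ = ‖res A (permL σ f)‖ := by
  have h : ‖res (σ '' A) f‖ ^ 2 = ‖res A (permL σ f)‖ ^ 2 := by
    rw [nsq, nsq, ← σ.tsum_eq (fun s => ‖res (σ '' A) f s‖ ^ 2)]
    refine tsum_congr fun s => ?_
    by_cases hA : s ∈ A
    · rw [res_mem (Set.mem_image_of_mem σ hA), res_mem hA, permL_apply]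
    · have h2 : σ s ∉ σ '' A := by
        rintro ⟨t, ht, hts⟩
        exact hA (σ.injective hts ▸ ht)
      rw [res_notMem h2, res_notMem hA]
  exact (sq_eq_sq₀ (norm_nonneg _) (norm_nonneg _)).1 h

theorem lim (U : Ultrafilter ℕ) (v : ℕ → ell2 S) (hv : Tendsto (fun n => ‖v n‖) U (𝓝 1))
    (A : Set S) : ∃ x : ℝ, Tendsto (fun n => ‖res A (v n)‖) U (𝓝 x) := by
  have h1 : ∀ᶠ n in (U : Filter ℕ), ‖v n‖ < 2 := hv.eventually (gt_mem_nhds (by norm_num))
  have h2 : Set.Icc (0 : ℝ) 2 ∈ U.map fun n => ‖res A (v n)‖ := by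
    rw [Ultrafilter.mem_map]
    refine (Ultrafilter.mem_coe).1 (h1.mono fun n hn => ?_)
    exact ⟨norm_nonneg _, (norm_res_le A (v n)).trans hn.le⟩
  obtain ⟨x, -, hx⟩ := isCompact_Icc.ultrafilter_le_nhds' _ h2
  exact ⟨x, hx⟩

end XCo

theorem com (hB : BlkStmt) (U : Ultrafilter ℕ) (G : Type) [Group G] (V : Subgroup G)
    (f : ℕ → ell2 G) (hf : Tendsto (fun n => ‖f n‖) U (𝓝 1))
    (hc : ∀ h : G, Tendsto (fun n => ‖blk V (leftReg G h (f n)) - blk V (f n)‖) U (𝓝 0)) :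
    CoAmen G V := by
  obtain ⟨hB1, -, hB3, -⟩ := hB G V
  set v : ℕ → ell2 (G ⧸ V) := fun n => blk V (f n) with hv
  have hv1 : Tendsto (fun n => ‖v n‖) U (𝓝 1) := by
    simpa only [hv, hB1] using hf
  choose a ha using XCo.lim U v hv1
  have ha2 : ∀ A, Tendsto (fun n => ‖res A (v n)‖ ^ 2) U (𝓝 (a A ^ 2)) := fun A => (ha A).pow 2
  refine ⟨fun A => a A ^ 2, fun A => sq_nonneg _, ?_, fun A B hAB => ?_, fun g A => ?_⟩
  · have h1 := ha2 Set.univ
    simp only [XCo.res_univ] at h1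
    have h2 := tendsto_nhds_unique h1 (hv1.pow 2)
    show a Set.univ ^ 2 = 1
    rw [h2, one_pow]
  · have h1 := ha2 (A ∪ B)
    simp only [XCo.res_union hAB] at h1
    exact tendsto_nhds_unique h1 ((ha2 A).add (ha2 B))
  · have h1 : Tendsto (fun n => ‖permL (MulAction.toPerm g : Equiv.Perm (G ⧸ V)) (v n) - v n‖) U
        (𝓝 0) := by
      have h3 := hc g⁻¹
      have h4 : ∀ n, permL (MulAction.toPerm g : Equiv.Perm (G ⧸ V)) (v n) =
          blk V (leftReg G g⁻¹ (f n)) := by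
        intro n
        ext c
        rw [permL_apply, hB3, inv_inv]
        rfl
      simpa only [h4] using h3
    have h2 : Tendsto (fun n => ‖res ((fun c : G ⧸ V => g • c) '' A) (v n)‖ - ‖res A (v n)‖) U
        (𝓝 0) := by
      refine squeeze_zero_norm (fun n => ?_) h1
      have h5 : ‖res ((fun c : G ⧸ V => g • c) '' A) (v n)‖ =
          ‖res A (permL (MulAction.toPerm g : Equiv.Perm (G ⧸ V)) (v n))‖ :=
        XCo.norm_res_image (MulAction.toPerm g : Equiv.Perm (G ⧸ V)) A (v n)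
      rw [h5, Real.norm_eq_abs]
      refine (abs_norm_sub_norm_le _ _).trans ?_
      rw [← XCo.res_sub]
      exact norm_res_le _ _
    have h3 := tendsto_nhds_unique h2 ((ha _).sub (ha A))
    have h4 : a ((fun c : G ⧸ V => g • c) '' A) = a A := by linarith
    show a ((fun c : G ⧸ V => g • c) '' A) ^ 2 = a A ^ 2
    rw [h4]

theorem mcc2 (hCA : ConcAStmt) (hV : VcsStmt) (hM : MasStmt) (hR : RmuStmt) (hP : PinStmt)
    (hB : BlkStmt) (hE : EstStmt) (U : Ultrafilter ℕ) (G : Type) [Group G] (C : ℝ)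
    (u : ℕ → (LG G).Elt) (hC1 : 1 ≤ C) (hF : Flip U G C u) (k : ℕ) (Γ : Fin k → Subgroup G)
    (V : Subgroup G) (hΓ : ∀ i, ¬ IsAmen (Γ i))
    (hz : ∀ z : G, z ∉ V → ∃ i, IsAmen ((Subgroup.centralizer {z}).subgroupOf (Γ i))) :
    CoAmen G V := by
  have hFV := hV U G C u hC1 hF
  refine com hB U G V (fun n => vec (u n)) hFV.vu ?_
  intro h
  have he1 := hFV.hu h
  have he2 : Tendsto (fun n => ‖vec (cj (u n) h) - res (V : Set G) (vec (cj (u n) h))‖) U (𝓝 0) :=
    hM hCA U G k Γ V hΓ hz (fun n => vec (cj (u n) h)) (hFV.nw h) (fun g => hFV.cw g h)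
  have he3 := hFV.ww h
  have hb : ∀ n, ‖blk V (leftReg G h (vec (u n))) - blk V (vec (u n))‖ ^ 2 ≤
      2 * (‖leftReg G h (vec (u n)) - op (u n) (vec (cj (u n) h))‖ +
        C * ‖vec (cj (u n) h) - res (V : Set G) (vec (cj (u n) h))‖) ^ 2 +
      2 * (C ^ 2 * (C ^ 2 * ‖vec (cj (u n) h) - res (V : Set G) (vec (cj (u n) h))‖ +
        ‖vec (cj (u n) h * star (cj (u n) h)) - delta 1‖)) := fun n =>
    hE hR hP hB G V (u n) (cj (u n) h) h C (C ^ 2) _ _ _ (hFV.bd n) (hFV.bdw h n)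
      le_rfl le_rfl le_rfl
  have hF0 : Tendsto (fun n => 2 * (‖leftReg G h (vec (u n)) - op (u n) (vec (cj (u n) h))‖ +
        C * ‖vec (cj (u n) h) - res (V : Set G) (vec (cj (u n) h))‖) ^ 2 +
      2 * (C ^ 2 * (C ^ 2 * ‖vec (cj (u n) h) - res (V : Set G) (vec (cj (u n) h))‖ +
        ‖vec (cj (u n) h * star (cj (u n) h)) - delta 1‖))) U (𝓝 0) := by
    have h1 := (((he1.add (he2.const_mul C)).pow 2).const_mul 2).add
      (((((he2.const_mul (C ^ 2)).add he3).const_mul (C ^ 2))).const_mul 2)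
    simpa using h1
  have hsq : Tendsto (fun n => Real.sqrt (2 * (‖leftReg G h (vec (u n)) -
        op (u n) (vec (cj (u n) h))‖ +
        C * ‖vec (cj (u n) h) - res (V : Set G) (vec (cj (u n) h))‖) ^ 2 +
      2 * (C ^ 2 * (C ^ 2 * ‖vec (cj (u n) h) - res (V : Set G) (vec (cj (u n) h))‖ +
        ‖vec (cj (u n) h * star (cj (u n) h)) - delta 1‖)))) U (𝓝 0) := by
    have h2 := (Real.continuous_sqrt.tendsto 0).comp hF0
    rw [Real.sqrt_zero] at h2
    exact h2
  exact squeeze_zero (fun n => norm_nonneg _) (fun n => Real.le_sqrt_of_sq_le (hb n)) hsq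

end

end MP8a6869.CC
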