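import Pool.Agent.Work.MP_8a6869_an.CC.Stmts

/-!
# MP_8a6869_an, commuting copies: item COS, the action on the cosets
-/

namespace MP8a6869.CC

open MP8a6869 MP8a6869.WR MP8a6869.WR.Contra
open scoped InnerProductSpace ComplexOrder ENNReal
open Filter Topology

noncomputable section

namespace XCos

/-- the stabiliser of a coset -/
theorem stab {G : Type} [Group G] (Δ V : Subgroup G) (x : G) :
    MulAction.stabilizer Δ (QuotientGroup.mk x : G ⧸ V) =
      (V.map (MulAut.conj x).toMonoidHom).subgroupOf Δ := by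
  ext h
  rw [MulAction.mem_stabilizer_iff, Subgroup.mem_subgroupOf, Subgroup.mem_map]
  have h1 : h • (QuotientGroup.mk x : G ⧸ V) = QuotientGroup.mk ((h : G) * x) := rfl
  rw [h1, QuotientGroup.eq]
  constructor
  · intro h2
    refine ⟨x⁻¹ * (h : G) * x, ?_, ?_⟩
    · have h3 := V.inv_mem h2
      have h4 : (((h : G) * x)⁻¹ * x)⁻¹ = x⁻¹ * (h : G) * x := by group
      rwa [h4] at h3
    · change x * (x⁻¹ * (h : G) * x) * x⁻¹ = h
      group
  · rintro ⟨v, hv, hvh⟩
    have h3 : x * v * x⁻¹ = h := hvh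
    have h4 : ((h : G) * x)⁻¹ * x = v⁻¹ := by
      rw [← h3]
      group
    rw [h4]
    exact V.inv_mem hv

end XCos

theorem cos : CosStmt := by
  intro hC hB U G _ Δ V hΔ hA f hf hcon
  obtain ⟨hB1, -, hB3, -⟩ := hB G V
  have h1 : Tendsto (fun n => ‖blk V (f n)‖) U (𝓝 1) := by
    simpa only [hB1] using hf
  have h2 : ∀ γ : Δ, Tendsto (fun n => ‖permL (MulAction.toPerm γ) (blk V (f n)) - blk V (f n)‖)
      U (𝓝 0) := by
    intro γ
    have h3 := hcon ((γ : G)⁻¹) (Δ.inv_mem γ.2)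
    have h4 : ∀ n, permL (MulAction.toPerm γ) (blk V (f n)) =
        blk V (leftReg G ((γ : G)⁻¹) (f n)) := by
      intro n
      ext c
      rw [permL_apply, hB3, inv_inv]
      rfl
    simpa only [h4] using h3
  have h3 := hC Δ (G ⧸ V) hΔ U (fun n => blk V (f n)) h1 h2
  have h4 : ∀ c : G ⧸ V, IsAmen (MulAction.stabilizer Δ c) := by
    intro c
    obtain ⟨x, rfl⟩ := QuotientGroup.mk_surjective c
    rw [XCos.stab]
    exact hA x
  have h5 : ∀ n, ∑' x : {x : G ⧸ V // IsAmen (MulAction.stabilizer Δ x)},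
      ‖blk V (f n) x.1‖ ^ 2 = ‖blk V (f n)‖ ^ 2 := by
    intro n
    rw [nsq]
    exact (Equiv.subtypeUnivEquiv h4).tsum_eq (fun x => ‖blk V (f n) x‖ ^ 2)
  have h6 : Tendsto (fun n => ‖blk V (f n)‖ ^ 2) U (𝓝 0) := by
    simpa only [h5] using h3
  have h7 : Tendsto (fun n => ‖blk V (f n)‖ ^ 2) U (𝓝 (1 ^ 2)) := h1.pow 2
  have h8 := tendsto_nhds_unique h6 h7
  norm_num at h8

end

end MP8a6869.CC
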