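import Pool.Agent.Work.MP_8a6869_an.WR.Stmts3
import Pool.Agent.Work.MP_8a6869_an.WR.Contra

/-!
# MP_8a6869_an, commuting copies: definitions

`L(G)` embeds in `L(G ≀ ℤ/2) = (L(G) ⊗ L(G)) ⋊ ℤ/2`; the flip `t` conjugates `L(G)` to a copy which
commutes with `L(G)`.
-/

namespace MP8a6869.CC

open MP8a6869 MP8a6869.WR MP8a6869.WR.Contra
open scoped InnerProductSpace ComplexOrder ENNReal
open Filter Topology

noncomputable section

/-- Every nontrivial conjugacy class is infinite. -/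
def Icc (G : Type) [Group G] : Prop :=
  ∀ g : G, g ≠ 1 → (Set.range fun h : G => h * g * h⁻¹).Infinite

/-! ## The wreath product `G ≀ ℤ/2` -/

/-- The wreath product `G ≀ ℤ/2 = (G × G) ⋊ ℤ/2`. -/
abbrev Wr2 (G : Type) [Group G] : Type := G ≀ᵣ Multiplicative (ZMod 2)

/-- The embedding `g ↦ (g, 1)` of `G` in `G ≀ ℤ/2`. -/
def inl2 (G : Type) [Group G] : G →* Wr2 G where
  toFun g := ⟨Pi.mulSingle 1 g, 1⟩
  map_one' := by
    ext x
    · simp
    · rfl
  map_mul' g h := by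
    ext x
    · by_cases hx : x = 1
      · subst hx; simp
      · simp [hx]
    · simp

/-- The flip `t` in `G ≀ ℤ/2`. -/
def flip2 (G : Type) [Group G] : Wr2 G := ⟨1, Multiplicative.ofAdd 1⟩

/-! ## Elements and vectors -/

/-- The unitary `λ(g)` as an element of `L(G)`. -/
def lg (G : Type) [Group G] (g : G) : (LG G).Elt := ⟨leftReg G g, leftReg_mem G g⟩

/-- The operator of an element of `L(G)`. -/
def op {G : Type} [Group G] (x : (LG G).Elt) : ell2 G →L[ℂ] ell2 G := x.1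

/-- The vector `x δ_1` of an element `x` of `L(G)`. -/
def vec {G : Type} [Group G] (x : (LG G).Elt) : ell2 G := op x (delta 1)

/-! ## Cosets -/

/-- The coset `c` of `V`, as a set. -/
def fib {G : Type} [Group G] (V : Subgroup G) (c : G ⧸ V) : Set G :=
  {x | (QuotientGroup.mk x : G ⧸ V) = c}

theorem hasSum_fib {G : Type} [Group G] (V : Subgroup G) (f : ell2 G) :
    HasSum (fun c : G ⧸ V => ‖res (fib V c) f‖ ^ 2) (‖f‖ ^ 2) := by
  have h1 : HasSum (fun x : G => ‖f x‖ ^ 2) (‖f‖ ^ 2) := by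
    rw [nsq]
    exact (summ f).hasSum
  have h2 : HasSum (fun p : Σ c : G ⧸ V, {x : G // (QuotientGroup.mk x : G ⧸ V) = c} =>
      ‖f p.2.1‖ ^ 2) (‖f‖ ^ 2) :=
    ((Equiv.sigmaFiberEquiv (fun x : G => (QuotientGroup.mk x : G ⧸ V))).hasSum_iff
      (f := fun x : G => ‖f x‖ ^ 2)).2 h1
  refine h2.sigma fun c => ?_
  rw [norm_res_sq]
  exact (((summ f).subtype (fib V c))).hasSum

/-- The masses of `f` on the cosets of `V`: the vector `c ↦ ‖f 1_c‖` of `ℓ²(G/V)`. -/
def blk {G : Type} [Group G] (V : Subgroup G) (f : ell2 G) : ell2 (G ⧸ V) :=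
  ⟨fun c => ((‖res (fib V c) f‖ : ℝ) : ℂ), mem_of (by simpa using (hasSum_fib V f).summable)⟩

@[simp] theorem blk_apply {G : Type} [Group G] (V : Subgroup G) (f : ell2 G) (c : G ⧸ V) :
    blk V f c = ((‖res (fib V c) f‖ : ℝ) : ℂ) := rfl

/-! ## The data of an existential embedding -/

/-- The element `u* λ(h) u`. -/
def cj {G : Type} [Group G] (u : (LG G).Elt) (h : G) : (LG G).Elt := star u * lg G h * u

/-- A bounded sequence `u n` in `L(G)` which is asymptotically unitary and asymptotically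
conjugates `G` to a copy which commutes with `G`. -/
structure Flip (U : Ultrafilter ℕ) (G : Type) [Group G] (C : ℝ) (u : ℕ → (LG G).Elt) : Prop where
  bd : ∀ n, ‖u n‖ ≤ C
  left : USame U (LG G) (fun n => star (u n) * u n) (fun _ => 1)
  right : USame U (LG G) (fun n => u n * star (u n)) (fun _ => 1)
  comm : ∀ g h, USame U (LG G) (fun n => lg G g * cj (u n) h) (fun n => cj (u n) h * lg G g)

/-- The same on vectors. -/
structure FlipV (U : Ultrafilter ℕ) (G : Type) [Group G] (C : ℝ) (u : ℕ → (LG G).Elt) :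
    Prop where
  bd : ∀ n, ‖u n‖ ≤ C
  bdw : ∀ h n, ‖cj (u n) h‖ ≤ C ^ 2
  vu : Tendsto (fun n => ‖vec (u n)‖) U (𝓝 1)
  hu : ∀ h, Tendsto (fun n => ‖leftReg G h (vec (u n)) - op (u n) (vec (cj (u n) h))‖) U (𝓝 0)
  nw : ∀ h, Tendsto (fun n => ‖vec (cj (u n) h)‖) U (𝓝 1)
  ww : ∀ h, Tendsto (fun n => ‖vec (cj (u n) h * star (cj (u n) h)) - delta 1‖) U (𝓝 0)
  cw : ∀ g h, Tendsto (fun n =>
    ‖leftReg G g (rightReg G g (vec (cj (u n) h))) - vec (cj (u n) h)‖) U (𝓝 0)

end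

end MP8a6869.CC
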