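import Pool.Agent.Work.MP_8a6869_an.CC.Quo
import Pool.Agent.Work.MP_8a6869_an.Conv

/-!
# MP_8a6869_an, commuting copies: assembly
-/

namespace MP8a6869.CC

open MP8a6869 MP8a6869.WR MP8a6869.WR.Contra
open scoped InnerProductSpace ComplexOrder ENNReal
open Filter Topology

noncomputable section

/-- If `G` is amenable then every subgroup is co-amenable. -/
theorem coAmen_of_isAmen (G : Type) [Group G] (V : Subgroup G) (h : IsAmen G) : CoAmen G V := by
  obtain ⟨m, h0, h1, h2, h3⟩ := h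
  refine ⟨fun A => m ((QuotientGroup.mk : G → G ⧸ V) ⁻¹' A), fun A => h0 _, ?_,
    fun A B hAB => ?_, fun g A => ?_⟩
  · show m ((QuotientGroup.mk : G → G ⧸ V) ⁻¹' Set.univ) = 1
    rw [Set.preimage_univ, h1]
  · show m ((QuotientGroup.mk : G → G ⧸ V) ⁻¹' (A ∪ B)) = _
    rw [Set.preimage_union, h2 _ _ (hAB.preimage _)]
  · show m ((QuotientGroup.mk : G → G ⧸ V) ⁻¹' ((fun c => g • c) '' A)) =
      m ((QuotientGroup.mk : G → G ⧸ V) ⁻¹' A)
    rw [← h3 g ((QuotientGroup.mk : G → G ⧸ V) ⁻¹' A)]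
    congr 1
    ext x
    constructor
    · rintro ⟨c, hc, hcx⟩
      refine ⟨g⁻¹ * x, ?_, mul_inv_cancel_left g x⟩
      show (QuotientGroup.mk (g⁻¹ * x) : G ⧸ V) ∈ A
      have h5 : (QuotientGroup.mk (g⁻¹ * x) : G ⧸ V) = c := by
        have h6 : (QuotientGroup.mk (g⁻¹ * x) : G ⧸ V) = g⁻¹ • (QuotientGroup.mk x : G ⧸ V) := rfl
        rw [h6, ← hcx]
        exact inv_smul_smul g c
      rw [h5]
      exact hc
    · rintro ⟨y, hy, rfl⟩
      exact ⟨QuotientGroup.mk y, hy, rfl⟩

theorem infinite_of (G : Type) [Group G] (hicc : Icc G) (V : Subgroup G) (hV : ¬ CoAmen G V) :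
    Infinite G := by
  by_cases h : ∃ g : G, g ≠ 1
  · obtain ⟨g, hg⟩ := h
    have h1 := hicc g hg
    exact Set.infinite_univ_iff.1 (h1.mono (Set.subset_univ _))
  · exfalso
    apply hV
    apply coAmen_of_isAmen
    have h1 : ∀ x : G, x = 1 := fun x => by
      by_contra hx
      exact h ⟨x, hx⟩
    refine ⟨fun S => S.indicator (fun _ => (1 : ℝ)) (1 : G), fun S => ?_, ?_, fun S T hST => ?_,
      fun g S => ?_⟩
    · exact Set.indicator_nonneg (fun _ _ => zero_le_one) _
    · exact Set.indicator_of_mem (Set.mem_univ _) _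
    · beta_reduce
      by_cases hS : (1 : G) ∈ S
      · have hT : (1 : G) ∉ T := Set.disjoint_left.1 hST hS
        rw [Set.indicator_of_mem (Set.mem_union_left T hS), Set.indicator_of_mem hS,
          Set.indicator_of_notMem hT, add_zero]
      · by_cases hT : (1 : G) ∈ T
        · rw [Set.indicator_of_mem (Set.mem_union_right S hT), Set.indicator_of_mem hT,
            Set.indicator_of_notMem hS, zero_add]
        · have hU : (1 : G) ∉ S ∪ T := fun h => h.elim hS hT
          rw [Set.indicator_of_notMem hU, Set.indicator_of_notMem hS,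
            Set.indicator_of_notMem hT, add_zero]
    · have e : (fun x => g * x) '' S = S := by
        have e1 : (fun x : G => g * x) = id := by
          funext x
          rw [h1 (g * x), id, h1 x]
        rw [e1, Set.image_id]
      beta_reduce
      rw [e]

/-- The conclusion of the main theorem in the working definitions. -/
def Concl (G : Type) [Group G] : Prop :=
  (LG G).IsII1Factor ∧ TopologicalSpace.SeparableSpace (LG G).H ∧
    (LG (Wr2 G)).IsII1Factor ∧ TopologicalSpace.SeparableSpace (LG (Wr2 G)).H ∧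
    ∃ ι : Embedding (LG G) (LG (Wr2 G)), (∀ g, ι.hom (lg G g) = lg (Wr2 G) (inl2 G g)) ∧
      ∀ U : Ultrafilter ℕ, ¬ IsExistential U ι

theorem mainCC (hConc : ConcAStmt) (hIcc : IccStmt) (hFlp : FlpStmt)
    (hEmb : EmbStmt) (hSq : Sq2Stmt) (hVcs : VcsStmt) (hMas : MasStmt) (hRmu : RmuStmt)
    (hPin : PinStmt) (hBlk : BlkStmt) (hEst : EstStmt)
    (G : Type) [Group G] [Countable G] (hicc : Icc G) (k : ℕ) (Γ : Fin k → Subgroup G)
    (V : Subgroup G) (hΓ : ∀ i, ¬ IsAmen (Γ i))
    (hz : ∀ z : G, z ∉ V → ∃ i, IsAmen ((Subgroup.centralizer {z}).subgroupOf (Γ i)))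
    (hV : ¬ CoAmen G V) : Concl G := by
  have hinf : Infinite G := infinite_of G hicc V hV
  obtain ⟨hcnt, hicc2⟩ := hIcc G hicc
  have hinf2 : Infinite (Wr2 G) := Infinite.of_injective _ (hFlp G).1
  obtain ⟨ι, hι⟩ := hEmb G (Wr2 G) (inl2 G) (hFlp G).1
  refine ⟨LG_factor G hicc, Sep.separable_ell2 G, LG_factor (Wr2 G) hicc2,
    Sep.separable_ell2 (Wr2 G), ι, hι, fun U hU => ?_⟩
  obtain ⟨C, u, hC, hu⟩ := hSq U G (Wr2 G) ι (inl2 G) (flip2 G) hι (hFlp G).2 hU
  exact hV (mcc2 hConc hVcs hMas hRmu hPin hBlk hEst U G C u hC hu k Γ V hΓ hz)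

theorem mainCl (hsub : SubStmt) (G : Type) [Group G]
    (hmain : ∀ (k : ℕ) (Γ : Fin k → Subgroup G) (V : Subgroup G), (∀ i, ¬ IsAmen (Γ i)) →
      (∀ z : G, z ∉ V → ∃ i, IsAmen ((Subgroup.centralizer {z}).subgroupOf (Γ i))) →
      ¬ CoAmen G V → Concl G)
    (hV : ¬ CoAmen G (Subgroup.closure {z : G | ¬ IsAmen (Subgroup.centralizer {z})})) :
    Concl G := by
  refine hmain 1 (fun _ => ⊤) _ (fun _ h => ?_) (fun z hz => ⟨0, ?_⟩) hV
  · apply hV
    apply coAmen_of_isAmen
    exact hsub G (⊤ : Subgroup G) (Subgroup.topEquiv (G := G)).symm.toMonoidHom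
      (Subgroup.topEquiv (G := G)).symm.injective h
  · have h1 : IsAmen (Subgroup.centralizer {z}) := by
      by_contra h
      exact hz (Subgroup.subset_closure h)
    refine hsub _ (Subgroup.centralizer {z})
      { toFun := fun y => ⟨((y : (⊤ : Subgroup G)) : G), y.2⟩
        map_one' := rfl
        map_mul' := fun _ _ => rfl } ?_ h1
    intro a b hab
    apply Subtype.ext
    apply Subtype.ext
    exact congrArg (fun y : Subgroup.centralizer {z} => (y : G)) hab

end

end MP8a6869.CC
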