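import Pool.Agent.Work.MP_8a6869_an.CC.Stmts

/-!
# MP_8a6869_an, commuting copies, item MCC (helper37): the contradiction
-/

namespace MP8a6869.CC

open MP8a6869 MP8a6869.WR MP8a6869.WR.Contra
open scoped InnerProductSpace ComplexOrder ENNReal
open Filter Topology

noncomputable section

theorem mcc : MccStmt := by
  intro hCA hV hM hR hP hB hE hC U G _ C u hC1 hF k Γ Δ V hΓ hΔ hz hx
  have hFV := hV U G C u hC1 hF
  refine hC hCA hB U G Δ V hΔ hx (fun n => vec (u n)) hFV.vu ?_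
  intro h _
  have he1 := hFV.hu h
  have he2 : Tendsto (fun n => ‖vec (cj (u n) h) - res (V : Set G) (vec (cj (u n) h))‖) U (𝓝 0) :=
    hM hCA U G k Γ V hΓ hz (fun n => vec (cj (u n) h)) (hFV.nw h) (fun g => hFV.cw g h)
  have he3 := hFV.ww h
  have hb : ∀ n, ‖blk V (leftReg G h (vec (u n))) - blk V (vec (u n))‖ ^ 2 ≤
      2 * (‖leftReg G h (vec (u n)) - op (u n) (vec (cj (u n) h))‖ +
        C * ‖vec (cj (u n) h) - res (V : Set G) (vec (cj (u n) h))‖) ^ 2 +
      2 * (C ^ 2 * (C ^ 2 * ‖vec (cj (u n) h) - res (V : Set G) (vec (cj (u n) h))‖ +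
        ‖vec (cj (u n) h * star (cj (u n) h)) - delta 1‖)) := fun n =>
    hE hR hP hB G V (u n) (cj (u n) h) h C (C ^ 2) _ _ _ (hFV.bd n) (hFV.bdw h n)
      le_rfl le_rfl le_rfl
  have hF0 : Tendsto (fun n => 2 * (‖leftReg G h (vec (u n)) - op (u n) (vec (cj (u n) h))‖ +
        C * ‖vec (cj (u n) h) - res (V : Set G) (vec (cj (u n) h))‖) ^ 2 +
      2 * (C ^ 2 * (C ^ 2 * ‖vec (cj (u n) h) - res (V : Set G) (vec (cj (u n) h))‖ +
        ‖vec (cj (u n) h * star (cj (u n) h)) - delta 1‖))) U (𝓝 0) := by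
    have h1 := (((he1.add (he2.const_mul C)).pow 2).const_mul 2).add
      (((((he2.const_mul (C ^ 2)).add he3).const_mul (C ^ 2))).const_mul 2)
    simpa using h1
  have hsq : Tendsto (fun n => Real.sqrt (2 * (‖leftReg G h (vec (u n)) -
        op (u n) (vec (cj (u n) h))‖ +
        C * ‖vec (cj (u n) h) - res (V : Set G) (vec (cj (u n) h))‖) ^ 2 +
      2 * (C ^ 2 * (C ^ 2 * ‖vec (cj (u n) h) - res (V : Set G) (vec (cj (u n) h))‖ +
        ‖vec (cj (u n) h * star (cj (u n) h)) - delta 1‖)))) U (𝓝 0) := by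
    have h2 := (Real.continuous_sqrt.tendsto 0).comp hF0
    rw [Real.sqrt_zero] at h2
    exact h2
  exact squeeze_zero (fun n => norm_nonneg _) (fun n => Real.le_sqrt_of_sq_le (hb n)) hsq

end

end MP8a6869.CC
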