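import Pool.Agent.Work.MP_8a6869_an.CC.Co

/-!
# MP_8a6869_an, commuting copies: groups with a quotient with amenable centralisers
-/

namespace MP8a6869.CC

open MP8a6869 MP8a6869.WR MP8a6869.WR.Contra
open scoped InnerProductSpace ComplexOrder ENNReal
open Filter Topology

noncomputable section

/-- If the kernel of a surjective homomorphism `π : G → Q` is co-amenable then `Q` is amenable. -/
theorem isAmen_of_coAmen (G Q : Type) [Group G] [Group Q] (π : G →* Q)
    (hπ : Function.Surjective π) (h : CoAmen G π.ker) : IsAmen Q := by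
  obtain ⟨m, h0, h1, h2, h3⟩ := h
  obtain ⟨p, hp⟩ : ∃ p : G ⧸ π.ker → Q, ∀ g : G, p (QuotientGroup.mk g) = π g :=
    ⟨fun c => QuotientGroup.kerLift π c, fun g => QuotientGroup.kerLift_mk π g⟩
  have hpm : ∀ (g : G) (c : G ⧸ π.ker), p (g • c) = π g * p c := by
    intro g c
    obtain ⟨x, rfl⟩ := QuotientGroup.mk_surjective c
    show p (QuotientGroup.mk (g * x)) = π g * p (QuotientGroup.mk x)
    rw [hp, hp, map_mul]
  refine ⟨fun A => m (p ⁻¹' A), fun A => h0 _, ?_, fun A B hAB => ?_, fun q A => ?_⟩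
  · show m (p ⁻¹' Set.univ) = 1
    rw [Set.preimage_univ, h1]
  · show m (p ⁻¹' (A ∪ B)) = m (p ⁻¹' A) + m (p ⁻¹' B)
    rw [Set.preimage_union, h2 _ _ (hAB.preimage p)]
  · show m (p ⁻¹' ((fun x => q * x) '' A)) = m (p ⁻¹' A)
    obtain ⟨g, rfl⟩ := hπ q
    rw [← h3 g (p ⁻¹' A)]
    congr 1
    ext c
    constructor
    · rintro ⟨a, ha, hac⟩
      refine ⟨g⁻¹ • c, ?_, smul_inv_smul g c⟩
      show p (g⁻¹ • c) ∈ A
      have h5 : p (g⁻¹ • c) = a := by
        rw [hpm, map_inv, ← hac, inv_mul_cancel_left]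
      rw [h5]
      exact ha
    · rintro ⟨d, hd, rfl⟩
      exact ⟨p d, hd, (hpm g d).symm⟩

theorem quo (hsub : SubStmt) (G Q : Type) [Group G] [Group Q] (π : G →* Q)
    (hπ : Function.Surjective π) (Γ : Subgroup G) (hΓ : ¬ IsAmen Γ)
    (hinj : ∀ g ∈ Γ, π g = 1 → g = 1)
    (hcent : ∀ q : Q, q ≠ 1 → IsAmen ((Subgroup.centralizer {q}).subgroupOf (Γ.map π))) :
    (∀ z : G, z ∉ π.ker → IsAmen ((Subgroup.centralizer {z}).subgroupOf Γ)) ∧
      ¬ CoAmen G π.ker := by
  have hinj2 : Function.Injective (fun g : Γ => π (g : G)) := by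
    intro a b hab
    have h1 : π ((a : G) * (b : G)⁻¹) = 1 := by
      rw [map_mul, map_inv]
      have h2 : π (a : G) = π (b : G) := hab
      rw [h2, mul_inv_cancel]
    have h3 := hinj _ (Γ.mul_mem a.2 (Γ.inv_mem b.2)) h1
    exact Subtype.ext (mul_inv_eq_one.1 h3)
  refine ⟨fun z hz => ?_, fun hco => ?_⟩
  · have hz1 : π z ≠ 1 := hz
    refine hsub _ ((Subgroup.centralizer {π z}).subgroupOf (Γ.map π))
      { toFun := fun y => ⟨⟨π ((y : Γ) : G), ⟨_, (y : Γ).2, rfl⟩⟩, ?_⟩
        map_one' := ?_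
        map_mul' := ?_ } ?_ (hcent (π z) hz1)
    · rw [Subgroup.mem_subgroupOf, Subgroup.mem_centralizer_singleton_iff]
      have h1 := y.2
      rw [Subgroup.mem_subgroupOf, Subgroup.mem_centralizer_singleton_iff] at h1
      show π ((y : Γ) : G) * π z = π z * π ((y : Γ) : G)
      rw [← map_mul, ← map_mul, h1]
    · apply Subtype.ext
      apply Subtype.ext
      exact map_one π
    · intro a b
      apply Subtype.ext
      apply Subtype.ext
      exact map_mul π _ _
    · intro a b hab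
      apply Subtype.ext
      apply hinj2
      exact congrArg (fun y : (Subgroup.centralizer {π z}).subgroupOf (Γ.map π) =>
        ((y : Γ.map π) : Q)) hab
  · have hQ := isAmen_of_coAmen G Q π hπ hco
    exact hΓ (hsub Γ Q (π.comp Γ.subtype) hinj2 hQ)

end

end MP8a6869.CC
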