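import Pool.Agent.Work.MP_8a6869_an.CC.Quo
import Pool.Agent.Work.MP_8a6869_an.CC.StmtsE

/-!
# MP_8a6869_an, commuting copies: quotients with amenable centralisers, amenable kernel on `Γ`
-/

namespace MP8a6869.CC

open MP8a6869 MP8a6869.WR MP8a6869.WR.Contra
open scoped InnerProductSpace ComplexOrder ENNReal
open Filter Topology

noncomputable section

/-- As `quo`, but `π` is only assumed to have an amenable kernel on `Γ`. -/
theorem quo2 (hsub : SubStmt) (hext : ExtStmt) (G Q : Type) [Group G] [Group Q] (π : G →* Q)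
    (hπ : Function.Surjective π) (Γ : Subgroup G) (hΓ : ¬ IsAmen Γ)
    (hker : IsAmen (π.ker.subgroupOf Γ))
    (hcent : ∀ q : Q, q ≠ 1 → IsAmen ((Subgroup.centralizer {q}).subgroupOf (Γ.map π))) :
    (∀ z : G, z ∉ π.ker → IsAmen ((Subgroup.centralizer {z}).subgroupOf Γ)) ∧
      ¬ CoAmen G π.ker := by
  refine ⟨fun z hz => ?_, fun hco => ?_⟩
  · have hz1 : π z ≠ 1 := hz
    obtain ⟨f, hf⟩ : ∃ f : (Subgroup.centralizer {z}).subgroupOf Γ →*
        (Subgroup.centralizer {π z}).subgroupOf (Γ.map π),
        ∀ y, (((f y : Γ.map π) : Q)) = π ((y : Γ) : G) := by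
      refine ⟨{ toFun := fun y => ⟨⟨π ((y : Γ) : G), ⟨_, (y : Γ).2, rfl⟩⟩, ?_⟩
                map_one' := ?_
                map_mul' := ?_ }, fun y => rfl⟩
      · rw [Subgroup.mem_subgroupOf, Subgroup.mem_centralizer_singleton_iff]
        have h1 := y.2
        rw [Subgroup.mem_subgroupOf, Subgroup.mem_centralizer_singleton_iff] at h1
        show π ((y : Γ) : G) * π z = π z * π ((y : Γ) : G)
        rw [← map_mul, ← map_mul, h1]
      · apply Subtype.ext
        apply Subtype.ext
        exact map_one π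
      · intro a b
        apply Subtype.ext
        apply Subtype.ext
        exact map_mul π _ _
    refine hext hsub _ _ f (hsub _ (π.ker.subgroupOf Γ)
      { toFun := fun y => ⟨((y : (Subgroup.centralizer {z}).subgroupOf Γ) : Γ), ?_⟩
        map_one' := rfl
        map_mul' := fun _ _ => rfl } ?_ hker) (hcent (π z) hz1)
    · rw [Subgroup.mem_subgroupOf, MonoidHom.mem_ker, ← hf]
      have h2 : f (y : (Subgroup.centralizer {z}).subgroupOf Γ) = 1 := y.2
      rw [h2]
      rfl
    · intro a b hab
      apply Subtype.ext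
      apply Subtype.ext
      exact congrArg (fun y : π.ker.subgroupOf Γ => (y : Γ)) hab
  · have hQ := isAmen_of_coAmen G Q π hπ hco
    refine hΓ (hext hsub Γ Q (π.comp Γ.subtype) (hsub _ (π.ker.subgroupOf Γ)
      { toFun := fun y => ⟨(y : Γ), y.2⟩
        map_one' := rfl
        map_mul' := fun _ _ => rfl } ?_ hker) hQ)
    intro a b hab
    apply Subtype.ext
    exact congrArg (fun y : π.ker.subgroupOf Γ => (y : Γ)) hab

end

end MP8a6869.CC
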