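import Pool.Agent.Work.MP_8a6869_an.CC.Stmts

/-!
# MP_8a6869_an, commuting copies, item RET: the special case of a retract (helper78)
-/

namespace MP8a6869.CC

open MP8a6869 MP8a6869.WR MP8a6869.WR.Contra
open scoped InnerProductSpace ComplexOrder ENNReal
open Filter Topology

noncomputable section

namespace XRet

/-- The trivial group is amenable. -/
theorem isAmen_of_subsingleton (A : Type) [Group A] (h : ∀ x : A, x = 1) : IsAmen A := by
  refine ⟨fun S => S.indicator (fun _ => (1 : ℝ)) (1 : A), fun S => ?_, ?_, fun S T hST => ?_,
    fun g S => ?_⟩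
  · exact Set.indicator_nonneg (fun _ _ => zero_le_one) _
  · exact Set.indicator_of_mem (Set.mem_univ _) _
  · beta_reduce
    by_cases hS : (1 : A) ∈ S
    · have hT : (1 : A) ∉ T := Set.disjoint_left.1 hST hS
      rw [Set.indicator_of_mem (Set.mem_union_left T hS), Set.indicator_of_mem hS,
        Set.indicator_of_notMem hT, add_zero]
    · by_cases hT : (1 : A) ∈ T
      · rw [Set.indicator_of_mem (Set.mem_union_right S hT), Set.indicator_of_mem hT,
          Set.indicator_of_notMem hS, zero_add]
      · have hU : (1 : A) ∉ S ∪ T := fun h => h.elim hS hT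
        rw [Set.indicator_of_notMem hU, Set.indicator_of_notMem hS, Set.indicator_of_notMem hT,
          add_zero]
  · have e : (fun x => g * x) '' S = S := by
      have e1 : (fun x : A => g * x) = id := by
        funext x
        rw [h (g * x), id, h x]
      rw [e1, Set.image_id]
    beta_reduce
    rw [e]

end XRet

theorem ret : RetStmt := by
  intro hsub G Q _ _ π s hs hQ hcent
  refine ⟨fun h => hQ (hsub Q s.range s.rangeRestrict ?_ h), fun z hz => ?_, fun x => ?_⟩
  · intro a b hab
    have h1 : s a = s b := congrArg (fun y : s.range => (y : G)) hab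
    rw [← hs a, ← hs b, h1]
  · have hz1 : π z ≠ 1 := hz
    refine hsub _ (Subgroup.centralizer {π z})
      { toFun := fun y => ⟨π ((y : s.range) : G), ?_⟩
        map_one' := ?_
        map_mul' := ?_ } ?_ (hcent (π z) hz1)
    · rw [Subgroup.mem_centralizer_singleton_iff]
      have h1 := y.2
      rw [Subgroup.mem_subgroupOf, Subgroup.mem_centralizer_singleton_iff] at h1
      rw [← map_mul, ← map_mul, h1]
    · apply Subtype.ext
      exact map_one π
    · intro a b
      apply Subtype.ext
      exact map_mul π _ _
    · intro a b hab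
      have h1 : π ((a : s.range) : G) = π ((b : s.range) : G) := congrArg Subtype.val hab
      obtain ⟨p, hp⟩ := (a : s.range).2
      obtain ⟨q, hq⟩ := (b : s.range).2
      apply Subtype.ext
      apply Subtype.ext
      rw [← hp, ← hq] at h1 ⊢
      rw [hs, hs] at h1
      rw [h1]
  · refine XRet.isAmen_of_subsingleton _ fun y => ?_
    obtain ⟨q, hq⟩ := (y : s.range).2
    have h1 := y.2
    rw [Subgroup.mem_subgroupOf, Subgroup.mem_map] at h1
    obtain ⟨k, hk, hk2⟩ := h1
    have h2 : x * k * x⁻¹ = ((y : s.range) : G) := hk2
    have h3 : π k = 1 := hk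
    have h4 : q = 1 := by
      rw [← hs q, hq, ← h2, map_mul, map_mul, h3, mul_one, ← map_mul, mul_inv_cancel, map_one]
    apply Subtype.ext
    apply Subtype.ext
    rw [← hq, h4, map_one]
    rfl

end

end MP8a6869.CC
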