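import Pool.Agent.Work.MP_8a6869_an.CC.Defs

/-!
# MP_8a6869_an, commuting copies: the statements of the items

Every docstring is the complete proof. `R` denotes right multiplication.
-/

namespace MP8a6869.CC

open MP8a6869 MP8a6869.WR MP8a6869.WR.Contra
open scoped InnerProductSpace ComplexOrder ENNReal
open Filter Topology

noncomputable section

/-- [ICC] EASY. `G ≀ ℤ/2` is countable and icc. Proof. Countable: the map to the pair
(`left`, `right`) is injective and `Multiplicative (ZMod 2)` is finite. Let `p ≠ 1`,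
`N g = inl2 G g = ((g, 1), 0)`. If `p.right = 1`, some coordinate `p.left x = a ≠ 1`; conjugate by the
elements `⟨Pi.mulSingle x h, 1⟩`: the coordinate `x` of the conjugate is `h a h⁻¹`, infinitely many
values. If `p.right ≠ 1`, that is `p.right = ofAdd 1`, conjugate by `⟨Pi.mulSingle 1 h, 1⟩`: the
coordinate `1` of the conjugate is `h * p.left 1` (the factor `h⁻¹` is at the other coordinate),
infinitely many values as `G` is infinite (`(p * q).left x = p.left x * q.left (p.right⁻¹ * x)`).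
(`Set.Infinite` of the range: its image under a coordinate map is infinite, `Set.Infinite.of_image`.) -/
def IccStmt : Prop :=
  ∀ (G : Type) [Group G] [Countable G] [Infinite G], Icc G → Countable (Wr2 G) ∧ Icc (Wr2 G)

/-- [FLP] EASY. The flip. Proof. `inl2 G g = ⟨Pi.mulSingle 1 g, 1⟩`, and
`t⁻¹ * inl2 G h * t = ⟨Pi.mulSingle (ofAdd 1) h, 1⟩` (compute; in `ZMod 2`, `-1 = 1`,
`Multiplicative (ZMod 2)` has the two elements `1`, `ofAdd 1`: `fin_cases` or `decide`).
Elements with different coordinates commute. -/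
def FlpStmt : Prop :=
  ∀ (G : Type) [Group G], Function.Injective (inl2 G) ∧
    ∀ g h : G, inl2 G g * ((flip2 G)⁻¹ * inl2 G h * flip2 G) =
      (flip2 G)⁻¹ * inl2 G h * flip2 G * inl2 G g

/-- [EMB] MEDIUM. An injective homomorphism `j : G → G'` induces an embedding `L(G) → L(G')`.
Proof. For `f` in `ℓ²(G')` and `s` in `G'` let `f_s = A_s f` in `ℓ²(G)`, `f_s(g) = f(j(g) s)` (injectivity
of `j`; `‖A_s‖ ≤ 1`). Put `(ι(x) f)(s) = (x f_s)(1)`. As `f_(j(g) s) = ρ(g) f_s` and `x` commutes with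
`ρ(g)`: `(ι(x) f)_s = x f_s` for all `s`, i.e. `A_s ι(x) = x A_s`. Boundedness: `G'` is the disjoint
union of the cosets `j(G) s`, `∑ over the cosets of ‖f_s‖² = ‖f‖²` (as `CC.hasSum_fib`, with the left
cosets of `(range j)` replaced by the orbits, e.g. `Quotient (QuotientGroup.rightRel j.range)` and `s` =
`Quotient.out`), so `‖ι(x) f‖ ≤ ‖x‖ ‖f‖`. `ι` is a unital `*`-homomorphism: `A_s` separate the points
(`f(s) = (A_s f)(1)`), and for the adjoint sum `⟪f_s, x f'_s⟫` over the cosets. `ι(x)` is in `L(G')`: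
let `y` commute with all `λ'(g')`. `A_s λ'(j g) = λ(g) A_s`, so `A_s y A_(s')^*` commutes with `λ(g)`, hence
with `x` (`comm_of_comm_leftReg`), and `ι(x) A_(s')^* = A_(s')^* x` (adjoint of `A_s' ι(x*) = x* A_s'`), so
`A_s (ι(x) y - y ι(x)) A_(s')^* = x A_s y A_(s')^* - A_s y A_(s')^* x = 0` for all `s`, `s'`; the vectors
`A_(s')^* δ_1 = δ_(s')` are total. `ι(λ_g) = λ'(j g)`: evaluate. Trace: `(δ_1)_1 = δ_1` (injectivity), so
`⟪δ_1, ι(x) δ_1⟫ = (x δ_1)(1)`. Injective: `(ι(x) δ_1)_1 = x δ_1`, `ext_of_delta`. Normal: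
`⟪η, ι(x_i) ζ⟫ = ∑ over the cosets of ⟪η_s, x_i ζ_s⟫`, each term is bounded by `C ‖η_s‖ ‖ζ_s‖`, summable:
`tendsto_tsum_of_dominated_convergence`. -/
def EmbStmt : Prop :=
  ∀ (G G' : Type) [Group G] [Group G'] (j : G →* G'), Function.Injective j →
    ∃ ι : Embedding (LG G) (LG G'), ∀ g : G, ι.hom (lg G g) = lg G' (j g)

/-- [SQ2] EASY-MEDIUM. From an existential embedding to the sequence `u`. Proof. `θ` as in the definition
of `IsExistential`, `u = θ (lg G' t)`. With the lemmas `N3.same_refl`, `same_trans`, `same_mul`, `same_tr`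
and `same_iff` of `Bd/B02.lean` (model: `WR/Seq.lean`): `θ (star (lg t) * lg t) = θ 1`, and this is the same
as `star u * u`; the same on the right. For `comm`: `star (lg t) * lg (j h) * lg t = lg (t⁻¹ * j h * t)`
commutes with `lg (j g)` (`leftReg_mul`, `star_leftReg`); apply `θ` (multiplicativity, `θ (star x)`,
`θ (ι.hom (lg g))` is the same as the constant `lg g`). Symmetry of `USame`: `same_iff` and
`n2 (a - b) = n2 (b - a)`. -/
def Sq2Stmt : Prop :=
  ∀ (U : Ultrafilter ℕ) (G G' : Type) [Group G] [Group G'] (ι : Embedding (LG G) (LG G'))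
    (j : G →* G') (t : G'), (∀ g, ι.hom (lg G g) = lg G' (j g)) →
    (∀ g h, j g * (t⁻¹ * j h * t) = t⁻¹ * j h * t * j g) → IsExistential U ι →
    ∃ (C : ℝ) (u : ℕ → (LG G).Elt), 1 ≤ C ∧ Flip U G C u

/-- [VCS] EASY-MEDIUM. From elements to vectors. Proof. `w = cj u h = u* h u`. `bdw`: `‖lg g‖ ≤ 1`, so
`‖w‖ ≤ C * 1 * C`. In the sense of `USame` (`same_mul` for bounded sequences, `N3.same_iff`:
`USame a b` iff `n2 (a n - b n) → 0`, `n2 x = ‖vec x‖`): `star u * u ~ 1` gives `vu`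
(`‖vec u‖² = tr (star u * u)`, `LGtr_star_mul`, `same_tr`). `h u ~ (u u*) h u = u w` gives `hu`
(`vec (lg h * u) = leftReg h (vec u)`, `vec (u * w) = op u (vec w)`). `w* w = u* h⁻¹ (u u*) h u ~ u* u ~ 1`
gives `nw`. `w w* = u* h (u u*) h⁻¹ u ~ u* u ~ 1` gives `ww` (`vec 1 = delta 1`). `cw`: `comm` and
`vec (lg g * w) = leftReg g (vec w)`, `vec (w * lg g) = w δ_g = rightReg g⁻¹ (vec w)` (`comm_rightReg`), and
`‖leftReg g (rightReg g v) - v‖ = ‖leftReg g v - rightReg g⁻¹ v‖` (`rightReg g` is an isometry which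
commutes with `leftReg g`). -/
def VcsStmt : Prop :=
  ∀ (U : Ultrafilter ℕ) (G : Type) [Group G] (C : ℝ) (u : ℕ → (LG G).Elt), 1 ≤ C →
    Flip U G C u → FlipV U G C u

/-- [MAS] EASY-MEDIUM. The mass outside `V`. Proof. `Γ i` acts on `X = G` by conjugation
(`γ • z = γ z γ⁻¹`, an explicit `MulAction (Γ i) G`), `permL (toPerm γ) v z = v (γ z γ⁻¹)`, that is
`leftReg γ⁻¹ (rightReg γ⁻¹ v)`; its stabiliser of `z` is `(Subgroup.centralizer {z}).subgroupOf (Γ i)`. By
`ConcAStmt` for `Γ i` the sum of `‖v n z‖²` over the `z` with amenable stabiliser tends to `0`. The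
complement of `V` is contained in the union over `i` of these sets, so
`‖v n - res V (v n)‖² = ∑' z ∉ V, ‖v n z‖² ≤ ∑ i (...) → 0` (`norm_res_sq`, `res_add_res`). -/
def MasStmt : Prop :=
  ConcAStmt → ∀ (U : Ultrafilter ℕ) (G : Type) [Group G] (k : ℕ) (Γ : Fin k → Subgroup G)
    (V : Subgroup G), (∀ i, ¬ IsAmen (Γ i)) →
    (∀ z : G, z ∉ V → ∃ i, IsAmen ((Subgroup.centralizer {z}).subgroupOf (Γ i))) →
    ∀ v : ℕ → ell2 G, Tendsto (fun n => ‖v n‖) U (𝓝 1) →
      (∀ g, Tendsto (fun n => ‖leftReg G g (rightReg G g (v n)) - v n‖) U (𝓝 0)) →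
      Tendsto (fun n => ‖v n - res (V : Set G) (v n)‖) U (𝓝 0)

/-- [RMU] EASY-MEDIUM. Right multiplication by `x`. Proof. `J f (s) = conj (f (s⁻¹))` is a conjugate linear
isometric involution of `ℓ²(G)` (as `permL`, `memℓp_comp` in `LG.lean`; or `A = J x* J` directly as the
linear map `f ↦ J (x* (J f))`, `LinearMap.mkContinuous` with the bound `‖x‖`). `R = J x* J`: commutes with
`leftReg g` because `J leftReg g J = rightReg g` and `x*` commutes with `rightReg g`. `J δ_1 = δ_1`,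
`J x* δ_1 = x δ_1` (`star_apply_delta`). The adjoint of `R` is `J x J` (`⟪J f, J f'⟫ = ⟪f', f⟫`), so
`star R δ_1 = J x δ_1 = x* δ_1`. -/
def RmuStmt : Prop :=
  ∀ (G : Type) [Group G] (x : (LG G).Elt), ∃ R : ell2 G →L[ℂ] ell2 G, ‖R‖ ≤ ‖x‖ ∧
    (∀ g, leftReg G g * R = R * leftReg G g) ∧ R (delta 1) = vec x ∧
    (star R) (delta 1) = vec (star x)

/-- [PIN] MEDIUM. Pinching to the cosets of `V`. Proof. `D f (x) = (T (res (fib V [x]) f)) x`, so
`res (fib V c) (D f) = res (fib V c) (T (res (fib V c) f))`, and `‖D f‖² = ∑_c ‖res_c T res_c f‖² ≤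
‖T‖² ∑_c ‖res_c f‖² = ‖T‖² ‖f‖²` (`hasSum_fib`; for the membership of `D f` in `ℓ²` use the same sums
through `Equiv.sigmaFiberEquiv`, or define `D f` through the orthogonal sum). Linear. Commutes with
`leftReg g`: `res (fib V c) (leftReg g f) = leftReg g (res (fib V (g⁻¹ • c)) f)`. `D (res_c f) = res_c (D f)`
from the definition. `V = fib V 1`. The adjoint of `D` is the pinching of `star T`
(`⟪D f, f'⟫ = ∑_c ⟪T res_c f, res_c f'⟫`; or compute only `⟪D f, res V f'⟫ = ⟪T (res V f), res V f'⟫` by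
`⟪g, res V f'⟫ = ⟪res V g, res V f'⟫`, which gives the last claim). -/
def PinStmt : Prop :=
  ∀ (G : Type) [Group G] (V : Subgroup G) (T : ell2 G →L[ℂ] ell2 G),
    (∀ g, leftReg G g * T = T * leftReg G g) → ∃ D : ell2 G →L[ℂ] ell2 G, ‖D‖ ≤ ‖T‖ ∧
    (∀ g, leftReg G g * D = D * leftReg G g) ∧
    (∀ (c : G ⧸ V) (f : ell2 G), D (res (fib V c) f) = res (fib V c) (D f)) ∧
    (∀ f : ell2 G, D (res (V : Set G) f) = res (V : Set G) (T (res (V : Set G) f))) ∧
    (∀ f : ell2 G, (star D) (res (V : Set G) f) = res (V : Set G) ((star T) (res (V : Set G) f)))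

/-- [BLK] EASY-MEDIUM. The block norms. Proof. First: `hasSum_fib` and `nsq`. Second: triangle
inequality `|‖res_c f‖ - ‖res_c f'‖| ≤ ‖res_c (f - f')‖` (`res` is additive), sum of the squares. Third:
`res (fib V c) (leftReg h f) = leftReg h (res (fib V (h⁻¹ • c)) f)` and `leftReg` is an isometry. Fourth: `D` and
`S = star D * D` map `res_c f` to `res_c (S f)` (`star D` too: `res_c` is self adjoint), so
`‖res_c (D f)‖² - ‖res_c f‖² = ⟪res_c f, (S - 1) res_c f⟫ = ⟪res_c f, res_c ((S - 1) f)⟫`, and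
`|a - b|² ≤ |a² - b²|` for `a, b ≥ 0`; so the left side is at most
`∑_c ‖res_c f‖ ‖res_c ((S - 1) f)‖ ≤ ‖f‖ ‖(S - 1) f‖` (Cauchy-Schwarz for the two vectors `blk f`,
`blk ((S - 1) f)`: `⟪,⟫ ≤ ‖‖ ‖‖` in `ℓ²(G/V)`, `lp.inner_eq_tsum`). -/
def BlkStmt : Prop :=
  ∀ (G : Type) [Group G] (V : Subgroup G),
    (∀ f : ell2 G, ‖blk V f‖ = ‖f‖) ∧
    (∀ f f' : ell2 G, ‖blk V f - blk V f'‖ ≤ ‖f - f'‖) ∧
    (∀ (h : G) (f : ell2 G) (c : G ⧸ V), blk V (leftReg G h f) c = blk V f (h⁻¹ • c)) ∧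
    ∀ (D : ell2 G →L[ℂ] ell2 G),
      (∀ (c : G ⧸ V) (f : ell2 G), D (res (fib V c) f) = res (fib V c) (D f)) → ∀ f : ell2 G,
      ‖blk V (D f) - blk V f‖ ^ 2 ≤ ‖f‖ * ‖(star D) (D f) - f‖

/-- [EST] EASY-MEDIUM. The main estimate. Proof. `R` from `RmuStmt` for `w`, `D` from `PinStmt` for
`T = R`. `δ_1 = res V δ_1`, so `D δ_1 = res V (R δ_1) = res V (vec w)`. `R`, `D` and `star D` commute with
the `leftReg g`, hence with `op u` (`comm_of_comm_leftReg`). So `op u (res V (vec w)) = op u (D δ_1) = D (vec u)`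
and `‖leftReg h (vec u) - D (vec u)‖ ≤ e₁ + C e₂`. Next `(star D * D - 1) (vec u) = op u ((star D * D - 1) δ_1)`,
and `star D (D δ_1) = star D (res V (vec w)) = res V ((star R) (res V (vec w)))`, which differs from
`res V ((star R) (vec w))` by at most `W e₂`, and `(star R) (vec w) = op w ((star R) δ_1) =
op w (vec (star w)) = vec (w * star w)`, which differs from `δ_1` by at most `e₃`. So
`‖star D (D (vec u)) - vec u‖ ≤ C (W e₂ + e₃)`. With the second and the fourth part of `BlkStmt`: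
`‖blk (leftReg h (vec u)) - blk (vec u)‖ ≤ (e₁ + C e₂) + √(‖vec u‖ C (W e₂ + e₃))`, `‖vec u‖ ≤ C`
(`‖δ_1‖ = 1`), `(a + b)² ≤ 2 a² + 2 b²`. -/
def EstStmt : Prop :=
  RmuStmt → PinStmt → BlkStmt →
  ∀ (G : Type) [Group G] (V : Subgroup G) (u w : (LG G).Elt) (h : G) (C W e₁ e₂ e₃ : ℝ),
    ‖u‖ ≤ C → ‖w‖ ≤ W → ‖leftReg G h (vec u) - op u (vec w)‖ ≤ e₁ →
    ‖vec w - res (V : Set G) (vec w)‖ ≤ e₂ → ‖vec (w * star w) - delta 1‖ ≤ e₃ →
    ‖blk V (leftReg G h (vec u)) - blk V (vec u)‖ ^ 2 ≤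
      2 * (e₁ + C * e₂) ^ 2 + 2 * (C ^ 2 * (W * e₂ + e₃))

/-- [COS] EASY-MEDIUM. The action on the cosets. Proof. `Δ` acts on `G ⧸ V` by left multiplication
(Mathlib's instance for the subgroup `Δ`), the stabiliser of `c = [x]` is
`{h : h x V = x V} = (V.map (MulAut.conj x).toMonoidHom).subgroupOf Δ`, amenable for every `c`. Let
`v n = blk V (f n)`: `‖v n‖ = ‖f n‖ → 1` (`BlkStmt`, first part) and
`permL (toPerm h) (v n) c = v n (h • c) = blk V (leftReg h⁻¹ (f n)) c` (third part), so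
`‖permL (toPerm h) (v n) - v n‖ → 0`. `ConcAStmt`: the sum of `‖v n c‖²` over all `c` tends to `0`, but it
is `‖v n‖² → 1`: contradiction (`U` is not trivial, `tendsto_nhds_unique`). -/
def CosStmt : Prop :=
  ConcAStmt → BlkStmt → ∀ (U : Ultrafilter ℕ) (G : Type) [Group G] (Δ V : Subgroup G),
    ¬ IsAmen Δ →
    (∀ x : G, IsAmen ((V.map (MulAut.conj x).toMonoidHom).subgroupOf Δ)) →
    ∀ f : ℕ → ell2 G, Tendsto (fun n => ‖f n‖) U (𝓝 1) →
      ¬ ∀ h ∈ Δ, Tendsto (fun n => ‖blk V (leftReg G h (f n)) - blk V (f n)‖) U (𝓝 0)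

/-- [MCC] EASY. The contradiction. Proof. `FlipV` from `VcsStmt`. For every `h`, `w n = cj (u n) h` satisfies
`‖vec (w n) - res V (vec (w n))‖ → 0` by `MasStmt` (`nw`, `cw`). So `EstStmt` with `C`, `W = C ^ 2` and the
three sequences `e₁`, `e₂`, `e₃ → 0` gives `‖blk (leftReg h (vec (u n))) - blk (vec (u n))‖ ^ 2 → 0` (squeeze),
contradiction with `CosStmt` for `f n = vec (u n)` (`vu`). -/
def MccStmt : Prop :=
  ConcAStmt → VcsStmt → MasStmt → RmuStmt → PinStmt → BlkStmt → EstStmt → CosStmt →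
  ∀ (U : Ultrafilter ℕ) (G : Type) [Group G] (C : ℝ) (u : ℕ → (LG G).Elt), 1 ≤ C →
    Flip U G C u → ∀ (k : ℕ) (Γ : Fin k → Subgroup G) (Δ V : Subgroup G),
    (∀ i, ¬ IsAmen (Γ i)) → ¬ IsAmen Δ →
    (∀ z : G, z ∉ V → ∃ i, IsAmen ((Subgroup.centralizer {z}).subgroupOf (Γ i))) →
    ¬ ∀ x : G, IsAmen ((V.map (MulAut.conj x).toMonoidHom).subgroupOf Δ)

/-- [RET] EASY. The special case of a retract. Proof. Let `π : G → Q`, `s : Q → G`, `π ∘ s = id`,
`Q` nonamenable, the centralisers of the nontrivial elements of `Q` amenable. Take `k = 1`,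
`Γ 0 = Δ = s.range`, `V = π.ker`. `s.range ≃* Q` is nonamenable (`WR.ConcA.isAmen_congr` or
`MainA.isAmen_congr`). For `z ∉ V`: `π` maps the centraliser of `z` in `s.range` injectively into the
centraliser of `π z ≠ 1`, so it is isomorphic to a subgroup of an amenable group, hence amenable (the
hypothesis `hsub`). `V` is normal, so `V.map (MulAut.conj x) = V`, and `V ⊓ s.range` is trivial
(`π (s q) = q`), hence amenable (the point mass on the one-element group). -/
def RetStmt : Prop :=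
  (∀ (A B : Type) [Group A] [Group B] (f : A →* B), Function.Injective f → IsAmen B →
    IsAmen A) →
  ∀ (G Q : Type) [Group G] [Group Q] (π : G →* Q) (s : Q →* G), (∀ q, π (s q) = q) →
    ¬ IsAmen Q → (∀ q : Q, q ≠ 1 → IsAmen (Subgroup.centralizer {q})) →
    ¬ IsAmen s.range ∧
    (∀ z : G, z ∉ π.ker → IsAmen ((Subgroup.centralizer {z}).subgroupOf s.range)) ∧
    ∀ x : G, IsAmen ((π.ker.map (MulAut.conj x).toMonoidHom).subgroupOf s.range)

/-- [SUB] EASY. A subgroup of an amenable group is amenable (`IsAmen`: left invariant finitely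
additive probability measure on all subsets). Proof. Let `H = f.range ≅ A`, `m` the mean on `B`. Choose a set
`T` of representatives of the right cosets `H b`: every `b` is uniquely `h t`. For `S ⊆ A` put
`m' S = m {b : the h-part of b is in f(S)}`; left multiplication by `f a` changes the `h`-part to `f a h`. For
instance `r b = Quotient.out (b : Quotient (QuotientGroup.rightRel H))`, `h-part = b * (r b)⁻¹`. -/
def SubStmt : Prop :=
  ∀ (A B : Type) [Group A] [Group B] (f : A →* B), Function.Injective f → IsAmen B → IsAmen A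

end

end MP8a6869.CC
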